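import Pool.Agent.W353.L1.Pairs

/-! Complete families of irreducible representations of a finite group. -/

set_option autoImplicit false

namespace Pool.Agent.W353.L1

open Complex ComplexConjugate Pool.Agent.W540.BE

section
variable {Q : Type*} [Group Q] [Finite Q]

theorem char_inv {m : ℕ} (ρ : Representation ℂ Q (Fin m → ℂ)) (g : Q) :
    ρ.character g⁻¹ = conj (ρ.character g) := by
  refine (trace_conj (ρ g) (ρ g⁻¹) ?_ (m := Nat.card Q) Nat.card_pos ?_).symm
  · rw [← map_mul, mul_inv_cancel, map_one]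
  · rw [← map_pow, pow_card_eq_one', map_one]

/-- Schur's lemma for sums over class functions -/
theorem central [Fintype Q] {m : ℕ} (ρ : Representation ℂ Q (Fin m → ℂ)) (hi : ρ.IsIrreducible)
    (f : Q → ℂ) (hf : ∀ a x, f (x * a * x⁻¹) = f a) :
    ∃ l : ℂ, ∑ x, f x • ρ x = l • (1 : Module.End ℂ (Fin m → ℂ)) ∧
      l * m = ∑ x, f x * ρ.character x := by
  classical
  have := hi
  set T : Module.End ℂ (Fin m → ℂ) := ∑ x, f x • ρ x with hT
  have hcomm : ∀ g : Q, T ∘ₗ ρ g = ρ g ∘ₗ T := by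
    intro g
    change T * ρ g = ρ g * T
    rw [hT, Finset.sum_mul, Finset.mul_sum]
    rw [← Equiv.sum_comp (MulAut.conj g).toEquiv]
    refine Finset.sum_congr rfl fun x _ => ?_
    have e1 : (MulAut.conj g).toEquiv x = g * x * g⁻¹ := rfl
    rw [e1, hf, smul_mul_assoc, mul_smul_comm, ← map_mul, ← map_mul]
    congr 2
    group
  obtain ⟨l, hl⟩ := (Representation.IsIrreducible.algebraMap_intertwiningMap_bijective_of_isAlgClosed
    (ρ := ρ)).2 ⟨T, hcomm⟩
  have hl2 : T = l • (1 : Module.End ℂ (Fin m → ℂ)) := by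
    have h1 := congrArg (fun S : ρ.IntertwiningMap ρ => S.toLinearMap) hl
    exact h1.symm
  refine ⟨l, hl2, ?_⟩
  have h2 := congrArg (LinearMap.trace ℂ (Fin m → ℂ)) hl2
  rw [hT, map_sum, map_smul, LinearMap.trace_one] at h2
  simp only [map_smul, smul_eq_mul] at h2
  rw [Module.finrank_fin_fun] at h2
  exact h2.symm

variable {κ : Type*} (K : Finset κ) {n : κ → ℕ}
  (r : ∀ k, Representation ℂ Q (Fin (n k) → ℂ)) (hirr : ∀ k ∈ K, (r k).IsIrreducible)
  (hne : ∀ k ∈ K, ∀ l ∈ K, k ≠ l → IsEmpty ((r k).Equiv (r l)))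
  (hsum : ∑ k ∈ K, n k ^ 2 = Nat.card Q)

include hirr hne in
theorem ortho_fam [Fintype Q] [DecidableEq κ] {k l : κ} (hk : k ∈ K) (hl : l ∈ K) :
    ∑ q, (r k).character q * (r l).character q⁻¹ = if k = l then (Nat.card Q : ℂ) else 0 := by
  classical
  have h0 : (Nat.card Q : ℂ) ≠ 0 := by
    have : Nat.card Q ≠ 0 := Nat.card_pos.ne'
    exact_mod_cast this
  let _ : Invertible (Nat.card Q : ℂ) := invertibleOfNonzero h0
  have := hirr k hk
  have := hirr l hl
  have h1 := Representation.char_orthonormal (r k) (r l)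
  rw [inv_mul_eq_iff_eq_mul₀ h0] at h1
  rw [h1]
  by_cases h : k = l
  · subst h
    rw [if_pos ⟨Representation.Equiv.refl _⟩, if_pos rfl, mul_one]
  · rw [if_neg h, if_neg, mul_zero]
    rintro ⟨e⟩
    exact (hne l hl k hk (Ne.symm h)).false e

include hirr hne hsum in
/-- the regular character -/
theorem regular [Fintype Q] [DecidableEq Q] (q : Q) :
    ∑ k ∈ K, (n k : ℂ) * (r k).character q = if q = 1 then (Nat.card Q : ℂ) else 0 := by
  classical
  set R : Q → ℂ := fun q => ∑ k ∈ K, (n k : ℂ) * (r k).character q with hR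
  have hR1 : R 1 = (Nat.card Q : ℂ) := by
    rw [hR]
    simp only [Representation.char_one, Module.finrank_fin_fun]
    rw [← hsum]
    push_cast
    exact Finset.sum_congr rfl fun k _ => by ring
  have h1 : ∑ q, R q * conj (R q) = (Nat.card Q : ℂ) * Nat.card Q := by
    have e1 : ∀ q, R q * conj (R q) = ∑ k ∈ K, ∑ l ∈ K, ((n k : ℂ) * n l) *
        ((r k).character q * (r l).character q⁻¹) := by
      intro q
      rw [hR]
      simp only
      rw [map_sum, Finset.sum_mul_sum]
      refine Finset.sum_congr rfl fun k _ => Finset.sum_congr rfl fun l _ => ?_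
      rw [map_mul, Complex.conj_natCast, char_inv (r l)]
      ring
    simp only [e1]
    rw [Finset.sum_comm]
    have e2 : ∀ k ∈ K, ∑ q, ∑ l ∈ K, ((n k : ℂ) * n l) *
        ((r k).character q * (r l).character q⁻¹) = (n k : ℂ) ^ 2 * Nat.card Q := by
      intro k hk
      rw [Finset.sum_comm]
      have e3 : ∀ l ∈ K, ∑ q, ((n k : ℂ) * n l) * ((r k).character q * (r l).character q⁻¹) =
          if k = l then (n k : ℂ) ^ 2 * Nat.card Q else 0 := by
        intro l hl
        rw [← Finset.mul_sum, ortho_fam K r hirr hne hk hl]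
        split_ifs with h
        · subst h
          ring
        · rw [mul_zero]
      rw [Finset.sum_congr rfl e3, Finset.sum_ite_eq, if_pos hk]
    rw [Finset.sum_congr rfl e2, ← Finset.sum_mul]
    congr 1
    rw [← hsum]
    push_cast
    rfl
  have h2 : ∑ q, ‖R q‖ ^ 2 = (Nat.card Q : ℝ) * Nat.card Q := by
    have e1 : ((∑ q, ‖R q‖ ^ 2 : ℝ) : ℂ) = (((Nat.card Q : ℝ) * Nat.card Q : ℝ) : ℂ) := by
      push_cast
      rw [← h1]
      refine Finset.sum_congr rfl fun q _ => ?_
      rw [Complex.mul_conj, Complex.normSq_eq_norm_sq]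
      push_cast
      rfl
    exact_mod_cast e1
  have h3 : ‖R 1‖ ^ 2 = (Nat.card Q : ℝ) * Nat.card Q := by
    rw [hR1, Complex.norm_natCast]
    ring
  change R q = _
  by_cases hq : q = 1
  · rw [hq, if_pos rfl, hR1]
  · rw [if_neg hq]
    have h4 : ‖R 1‖ ^ 2 + ‖R q‖ ^ 2 ≤ ∑ q, ‖R q‖ ^ 2 := by
      have e : ∑ x ∈ ({1, q} : Finset Q), ‖R x‖ ^ 2 = ‖R 1‖ ^ 2 + ‖R q‖ ^ 2 :=
        Finset.sum_pair (Ne.symm hq)
      rw [← e]
      exact Finset.sum_le_sum_of_subset_of_nonneg (Finset.subset_univ _)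
        fun _ _ _ => sq_nonneg _
    rw [h2, h3] at h4
    have h5 : ‖R q‖ ^ 2 ≤ 0 := by linarith
    have h6 : ‖R q‖ = 0 := by nlinarith [norm_nonneg (R q)]
    exact norm_eq_zero.1 h6

include hirr hne hsum in
/-- class functions are combinations of characters -/
theorem inversion [Fintype Q] (f : Q → ℂ) (hf : ∀ a x, f (x * a * x⁻¹) = f a) (x : Q) :
    (Nat.card Q : ℂ) * f x = ∑ k ∈ K, (∑ y, f y⁻¹ * (r k).character y) * (r k).character x := by
  classical
  set f' : Q → ℂ := fun y => f y⁻¹ with hf'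
  have hfc : ∀ a x, f' (x * a * x⁻¹) = f' a := by
    intro a x
    rw [hf']
    simp only
    have : (x * a * x⁻¹)⁻¹ = x * a⁻¹ * x⁻¹ := by group
    rw [this, hf]
  have h1 : (Nat.card Q : ℂ) * f x =
      ∑ y, f y * ∑ k ∈ K, (n k : ℂ) * (r k).character (y⁻¹ * x) := by
    have e1 : ∀ y, f y * ∑ k ∈ K, (n k : ℂ) * (r k).character (y⁻¹ * x) =
        if y = x then (Nat.card Q : ℂ) * f x else 0 := by
      intro y
      rw [regular K r hirr hne hsum]
      by_cases h : y = x
      · subst h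
        rw [if_pos (inv_mul_cancel y), if_pos rfl]
        ring
      · rw [if_neg h, if_neg, mul_zero]
        intro h2
        exact h (inv_mul_eq_one.1 h2)
    simp only [e1]
    rw [Finset.sum_ite_eq', if_pos (Finset.mem_univ _)]
  rw [h1]
  simp only [Finset.mul_sum]
  rw [Finset.sum_comm]
  refine Finset.sum_congr rfl fun k hk => ?_
  obtain ⟨l, hl1, hl2⟩ := central (r k) (hirr k hk) f' hfc
  have h2 : ∑ y, f y * (r k).character (y⁻¹ * x) = l * (r k).character x := by
    have e1 : ∑ y, f y * (r k).character (y⁻¹ * x) = ∑ y, f' y * (r k).character (y * x) := by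
      rw [← Equiv.sum_comp (Equiv.inv Q)]
      refine Finset.sum_congr rfl fun y _ => ?_
      rw [Equiv.inv_apply, inv_inv]
    rw [e1]
    have e2 : ∀ y, f' y * (r k).character (y * x) =
        LinearMap.trace ℂ _ ((f' y • r k y) * r k x) := by
      intro y
      rw [smul_mul_assoc, map_smul, smul_eq_mul, ← map_mul]
      rfl
    simp only [e2]
    rw [← map_sum, ← Finset.sum_mul, hl1, smul_mul_assoc, one_mul, map_smul, smul_eq_mul]
    rfl
  have h3 : ∑ y, f y * ((n k : ℂ) * (r k).character (y⁻¹ * x)) =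
      n k * (∑ y, f y * (r k).character (y⁻¹ * x)) := by
    rw [Finset.mul_sum]
    exact Finset.sum_congr rfl fun y _ => by ring
  rw [h3, h2, ← hl2]
  ring

/-- the number of `z` with `z g z⁻¹ = x` -/
noncomputable def cn [Fintype Q] (g x : Q) : ℝ := by
  classical
  exact ∑ z, if z * g * z⁻¹ = x then (1 : ℝ) else 0

theorem cn_nonneg [Fintype Q] (g x : Q) : 0 ≤ cn g x :=
  Finset.sum_nonneg fun z _ => by split_ifs <;> norm_num

theorem sum_cn [Fintype Q] (g : Q) : ∑ x, cn g x = Nat.card Q := by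
  classical
  unfold cn
  rw [Finset.sum_comm]
  simp only [Finset.sum_ite_eq, Finset.mem_univ, if_true]
  rw [Finset.sum_const, nsmul_eq_mul, mul_one, Finset.card_univ, Nat.card_eq_fintype_card]

include hirr hne hsum in
/-- column orthogonality -/
theorem column [Fintype Q] (g x : Q) :
    ((cn g x : ℝ) : ℂ) = ∑ k ∈ K, (r k).character g⁻¹ * (r k).character x := by
  classical
  have h0 : (Nat.card Q : ℂ) ≠ 0 := by
    have : Nat.card Q ≠ 0 := Nat.card_pos.ne'
    exact_mod_cast this
  have hf : ∀ a y, ((cn g (y * a * y⁻¹) : ℝ) : ℂ) = ((cn g a : ℝ) : ℂ) := by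
    intro a y
    congr 1
    unfold cn
    rw [← Equiv.sum_comp (Equiv.mulLeft y)]
    refine Finset.sum_congr rfl fun z _ => ?_
    have : (Equiv.mulLeft y z * g * (Equiv.mulLeft y z)⁻¹ = y * a * y⁻¹) ↔ z * g * z⁻¹ = a := by
      change (y * z * g * (y * z)⁻¹ = y * a * y⁻¹) ↔ _
      constructor
      · intro h
        have h2 : y * (z * g * z⁻¹) * y⁻¹ = y * a * y⁻¹ := by
          rw [← h]
          group
        exact mul_left_cancel (mul_right_cancel h2)
      · intro h
        rw [← h]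
        group
    simp only [this]
  have h1 := inversion K r hirr hne hsum (fun x => ((cn g x : ℝ) : ℂ)) hf x
  have h2 : ∀ k ∈ K, ∑ y, ((cn g y⁻¹ : ℝ) : ℂ) * (r k).character y =
      Nat.card Q * (r k).character g⁻¹ := by
    intro k _
    rw [← Equiv.sum_comp (Equiv.inv Q)]
    have e0 : ∀ y : Q, ((cn g (Equiv.inv Q y)⁻¹ : ℝ) : ℂ) * (r k).character (Equiv.inv Q y) =
        ∑ z : Q, (if z * g * z⁻¹ = y then (1 : ℂ) else 0) * (r k).character y⁻¹ := by
      intro y
      rw [Equiv.inv_apply, inv_inv, ← Finset.sum_mul]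
      congr 1
      unfold cn
      rw [Complex.ofReal_sum]
      refine Finset.sum_congr rfl fun z _ => ?_
      split_ifs <;> simp
    rw [Finset.sum_congr rfl fun y _ => e0 y]
    rw [Finset.sum_comm]
    have e1 : ∀ z : Q, ∑ y, (if z * g * z⁻¹ = y then (1 : ℂ) else 0) * (r k).character y⁻¹ =
        (r k).character g⁻¹ := by
      intro z
      have e2 : ∀ y, (if z * g * z⁻¹ = y then (1 : ℂ) else 0) * (r k).character y⁻¹ =
          if z * g * z⁻¹ = y then (r k).character y⁻¹ else 0 := by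
        intro y
        split_ifs <;> simp
      simp only [e2]
      rw [Finset.sum_ite_eq, if_pos (Finset.mem_univ _)]
      have e3 : (z * g * z⁻¹)⁻¹ = z * g⁻¹ * z⁻¹ := by group
      rw [e3, Representation.char_conj]
    simp only [e1]
    rw [Finset.sum_const, nsmul_eq_mul, Finset.card_univ, Nat.card_eq_fintype_card]
  rw [Finset.sum_congr rfl fun k hk => by rw [h2 k hk]] at h1
  have h3 : ∑ k ∈ K, (Nat.card Q : ℂ) * (r k).character g⁻¹ * (r k).character x =
      Nat.card Q * ∑ k ∈ K, (r k).character g⁻¹ * (r k).character x := by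
    rw [Finset.mul_sum]
    exact Finset.sum_congr rfl fun k _ => by ring
  rw [h3] at h1
  exact mul_left_cancel₀ h0 h1

include hirr hne hsum in
/-- the combination with the coefficients `Re (u χ_k(g))` has mean absolute value at most one -/
theorem comb_le [Fintype Q] (g : Q) (u : ℂ) (hu : ‖u‖ = 1) :
    ∑ q, ‖∑ k ∈ K, (((u * (r k).character g).re : ℝ) : ℂ) * (r k).character q⁻¹‖ ≤
      Nat.card Q := by
  classical
  have h1 : ∀ q, ∑ k ∈ K, (((u * (r k).character g).re : ℝ) : ℂ) * (r k).character q⁻¹ =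
      1 / 2 * (u * ((cn g⁻¹ q⁻¹ : ℝ) : ℂ)) + 1 / 2 * (conj u * ((cn g q⁻¹ : ℝ) : ℂ)) := by
    intro q
    rw [column K r hirr hne hsum g⁻¹ q⁻¹, column K r hirr hne hsum g q⁻¹, inv_inv]
    simp only [Finset.mul_sum]
    rw [← Finset.sum_add_distrib]
    refine Finset.sum_congr rfl fun k _ => ?_
    have h2 : (((u * (r k).character g).re : ℝ) : ℂ) =
        1 / 2 * (u * (r k).character g + conj u * (r k).character g⁻¹) := by
      rw [char_inv (r k) g, ← map_mul, Complex.add_conj]
      push_cast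
      ring
    rw [h2]
    ring
  have h2 : ∀ q, ‖∑ k ∈ K, (((u * (r k).character g).re : ℝ) : ℂ) * (r k).character q⁻¹‖ ≤
      1 / 2 * cn g⁻¹ q⁻¹ + 1 / 2 * cn g q⁻¹ := by
    intro q
    rw [h1 q]
    refine (norm_add_le _ _).trans (le_of_eq ?_)
    rw [norm_mul, norm_mul, norm_mul, norm_mul, Complex.norm_conj, hu, Complex.norm_real,
      Complex.norm_real, Real.norm_of_nonneg (cn_nonneg _ _), Real.norm_of_nonneg (cn_nonneg _ _)]
    norm_num
  refine (Finset.sum_le_sum fun q _ => h2 q).trans (le_of_eq ?_)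
  rw [Finset.sum_add_distrib, ← Finset.mul_sum, ← Finset.mul_sum]
  have h3 : ∀ g : Q, ∑ q, cn g q⁻¹ = (Nat.card Q : ℝ) := by
    intro g
    rw [← sum_cn g, ← Equiv.sum_comp (Equiv.inv Q)]
    exact Finset.sum_congr rfl fun q _ => by rw [Equiv.inv_apply, inv_inv]
  rw [h3, h3]
  ring

end

end Pool.Agent.W353.L1
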