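import Pool.Agent.W353.L1.Equi

/-! The sup-norm inequality on the edge for all Artin twists over a number field. -/

set_option autoImplicit false

namespace Pool.Agent.W353.L1

open Complex Filter Topology ComplexConjugate Pool.Agent.H341R2 NumberField IsDedekindDomain
  Pool.Agent.W401.Cheb Pool.Agent.W540.BE Polynomial

section
variable {F : Type} [Field F] [NumberField F] {b : ℕ}

open Classical in
/-- the normalised trace of Frobenius -/
noncomputable def tr (w : ℝ) (α : HeightOneSpectrum (𝓞 F) → Fin b → ℂ)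
    (v : HeightOneSpectrum (𝓞 F)) : ℝ :=
  if (∀ j, ‖α v j‖ = (nm F v : ℝ) ^ w) ∧ (∑ j, α v j).im = 0 then
    (∑ j, α v j).re * (nm F v : ℝ) ^ (-w) else 0

theorem nm_pos (v : HeightOneSpectrum (𝓞 F)) : 0 < nm F v := by
  have := two_le_nm v
  omega

theorem tr_eq {w : ℝ} {α : HeightOneSpectrum (𝓞 F) → Fin b → ℂ} {v : HeightOneSpectrum (𝓞 F)}
    (h1 : ∀ j, ‖α v j‖ = (nm F v : ℝ) ^ w) (h2 : (∑ j, α v j).im = 0) :
    (tr w α v : ℂ) = (∑ j, α v j) * ((nm F v : ℕ) : ℂ) ^ (-(w : ℂ)) := by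
  unfold tr
  rw [if_pos ⟨h1, h2⟩]
  have h3 : (((∑ j, α v j).re : ℝ) : ℂ) = ∑ j, α v j := by
    apply Complex.ext
    · simp
    · rw [Complex.ofReal_im, h2]
  rw [Complex.ofReal_mul, h3, Complex.ofReal_cpow (by positivity)]
  push_cast
  rfl

theorem abs_tr_le (w : ℝ) (α : HeightOneSpectrum (𝓞 F) → Fin b → ℂ)
    (v : HeightOneSpectrum (𝓞 F)) : |tr w α v| ≤ b := by
  unfold tr
  split_ifs with h
  · rw [abs_mul, abs_of_nonneg (Real.rpow_nonneg (Nat.cast_nonneg _) _)]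
    have h0 : (0 : ℝ) < nm F v := by exact_mod_cast nm_pos v
    have h1 : |(∑ j, α v j).re| ≤ b * (nm F v : ℝ) ^ w := by
      refine (Complex.abs_re_le_norm _).trans ((norm_sum_le _ _).trans ?_)
      rw [Finset.sum_congr rfl fun j _ => h.1 j, Finset.sum_const, Finset.card_univ,
        Fintype.card_fin, nsmul_eq_mul]
    calc |(∑ j, α v j).re| * (nm F v : ℝ) ^ (-w)
        ≤ b * (nm F v : ℝ) ^ w * (nm F v : ℝ) ^ (-w) :=
          mul_le_mul_of_nonneg_right h1 (by positivity)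
      _ = b := by rw [mul_assoc, ← Real.rpow_add h0, add_neg_cancel, Real.rpow_zero, mul_one]
  · rw [abs_zero]
    positivity

/-- The size of the Euler product of a twist. -/
theorem size_corr (w : ℝ) (α : HeightOneSpectrum (𝓞 F) → Fin b → ℂ)
    (hα : ∀ᶠ v in cofinite, ∀ j, ‖α v j‖ = (nm F v : ℝ) ^ w)
    (hreal : ∀ᶠ v in cofinite, (∑ j, α v j).im = 0)
    (U : Subgroup (GK F)) [U.Normal] [Finite (GK F ⧸ U)]
    {n : ℕ} (ρ : Representation ℂ (GK F) (Fin n → ℂ)) (hρ : ∀ u ∈ U, ρ u = 1)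
    (τ : ℝ) (B : HeightOneSpectrum (𝓞 F) → ℂ[X])
    (hB : ∀ᶠ v in cofinite, ∀ σ : GK F, IsFrob v σ → ∀ z : ℂ,
      (B v).eval z = ∏ j, LinearMap.det (1 - (α v j * z) • ρ σ⁻¹))
    (hB0 : ∀ v, (B v).eval (((nm F v : ℕ) : ℂ) ^ (-(w + 1 + τ * I : ℂ))) ≠ 0)
    (L : ℂ → ℂ)
    (hL : ∀ s : ℂ, w + 1 < s.re → L s = ∏' v, ((B v).eval (((nm F v : ℕ) : ℂ) ^ (-s)))⁻¹)
    (σ : HeightOneSpectrum (𝓞 F) → GK F) (hσ : ∀ v, IsFrob v (σ v)) :
    (∀ᶠ ε : ℝ in 𝓝[>] 0, L (w + 1 + τ * I + ε) ≠ 0) ∧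
    Tendsto (fun ε : ℝ => (EP (nm F) ε fun v => ((tr w α v : ℂ) *
        (ρ.character (σ v)⁻¹ * zz τ v)).re) / lam ε -
        Real.log ‖L (w + 1 + τ * I + ε)‖ / Real.log (1 / ε)) (𝓝[>] 0) (𝓝 0) := by
  classical
  have hN : NormSys (nm F) := normSys
  set y : HeightOneSpectrum (𝓞 F) → ℂ := fun v => (tr w α v : ℂ) *
    (ρ.character (σ v)⁻¹ * zz τ v) with hy
  have hyb : ∀ v, ‖y v‖ ≤ b * n := by
    intro v
    rw [hy]
    simp only
    rw [norm_mul, norm_mul, norm_zz, mul_one, Complex.norm_real, Real.norm_eq_abs]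
    exact mul_le_mul (abs_tr_le w α v) (norm_char_le U ρ hρ _) (norm_nonneg _) (by positivity)
  set Good : HeightOneSpectrum (𝓞 F) → Prop := fun v => ((∀ j, ‖α v j‖ = (nm F v : ℝ) ^ w) ∧
    (∑ j, α v j).im = 0) ∧
    ∀ σ : GK F, IsFrob v σ → ∀ z : ℂ,
      (B v).eval z = ∏ j, LinearMap.det (1 - (α v j * z) • ρ σ⁻¹) with hGood
  have hfin : {v | ¬ Good v}.Finite := by
    have := (hα.and hreal).and hB
    rwa [Filter.eventually_cofinite] at this
  have hGex : ∀ (ε : ℝ) (v : HeightOneSpectrum (𝓞 F)), ∃ G : ℂ, 0 < ε → Good v →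
      cexp G = ((B v).eval (((nm F v : ℕ) : ℂ) ^ (-(w + 1 + τ * I + ε : ℂ))))⁻¹ ∧
      ‖G - y v * ((nm F v : ℝ) ^ (-(1 + ε)) : ℝ)‖ ≤ (b * n : ℝ) * (nm F v : ℝ) ^ (-2 : ℝ) := by
    intro ε v
    by_cases h : 0 < ε ∧ Good v
    · obtain ⟨G, hG1, hG2⟩ := local_factor w (nm F v) (two_le_nm v) (α v) h.2.1.1
        (ρ (σ v)⁻¹) (m := Nat.card (GK F ⧸ U)) Nat.card_pos
        (rho_pow U ρ hρ _) τ ε h.1
      refine ⟨G, fun _ _ => ⟨?_, ?_⟩⟩
      · rw [hG1, h.2.2 (σ v) (hσ v)]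
      · have h2 : y v = (∑ j, α v j) * ((nm F v : ℕ) : ℂ) ^ (-(w : ℂ)) *
            (((nm F v : ℕ) : ℂ) ^ (-(τ * I)) * ρ.character (σ v)⁻¹) := by
          rw [hy]
          simp only
          rw [tr_eq h.2.1.1 h.2.1.2]
          unfold zz
          ring
        rw [h2]
        exact hG2
    · exact ⟨0, fun h1 h2 => absurd ⟨h1, h2⟩ h⟩
  choose G hG using hGex
  set a : HeightOneSpectrum (𝓞 F) → ℂ := fun v => if Good v then y v else 0 with ha
  have hab : ∀ v, ‖a v‖ ≤ b * n := by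
    intro v
    rw [ha]
    simp only
    split_ifs
    · exact hyb v
    · rw [norm_zero]; positivity
  have ha0 : ∀ v, ¬ Good v → a v = 0 := by
    intro v hv
    rw [ha]
    simp only
    rw [if_neg hv]
  obtain ⟨C', hC'⟩ := sizeP hN (Good := Good) hfin B (w + 1 + τ * I)
    (fun v _ => hB0 v) a hab ha0 G (C := (b * n : ℝ))
    (by
      intro ε hε v hv
      have h1 : a v = y v := by
        rw [ha]
        simp only
        rw [if_pos hv]
      rw [h1]
      exact (hG ε v hε hv).2)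
    (L := fun ε => L (w + 1 + τ * I + ε))
    (by
      intro ε hε
      rw [hL _ (by simp [hε])]
      refine tprod_congr fun v => ?_
      split_ifs with hv
      · rw [(hG ε v hε hv).1]
      · rfl)
  set r : HeightOneSpectrum (𝓞 F) → ℝ := fun v => (y v).re - (a v).re with hr
  have hr0 : ∀ v, v ∉ hfin.toFinset → r v = 0 := by
    intro v hv
    rw [Set.Finite.mem_toFinset, Set.mem_ofPred_eq, not_not] at hv
    rw [hr, ha]
    simp only
    rw [if_pos hv, sub_self]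
  have hrb : ∀ v, |r v| ≤ 2 * (b * n) := by
    intro v
    rw [hr]
    simp only
    have h1 : |(y v).re| ≤ b * n := (Complex.abs_re_le_norm _).trans (hyb v)
    have h2 : |(a v).re| ≤ b * n := (Complex.abs_re_le_norm _).trans (hab v)
    rw [abs_le] at *
    constructor <;> linarith [h1.1, h1.2, h2.1, h2.2]
  have hsplit : ∀ ε : ℝ, 0 < ε → (EP (nm F) ε fun v => (y v).re) =
      (EP (nm F) ε fun v => (a v).re) + EP (nm F) ε r := by
    intro ε hε
    rw [← EP_add hN hε (B := b * n) (B' := 2 * (b * n))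
      (fun v => (Complex.abs_re_le_norm _).trans (hab v)) hrb]
    congr 1
    funext v
    rw [hr]
    ring
  have hmain : ∀ᶠ ε : ℝ in 𝓝[>] 0, L (w + 1 + τ * I + ε) ≠ 0 ∧
      |(EP (nm F) ε fun v => (y v).re) - Real.log ‖L (w + 1 + τ * I + ε)‖| ≤
        C' + hfin.toFinset.card * (2 * (b * n)) := by
    filter_upwards [hC', self_mem_nhdsWithin] with ε h1 h2
    have hε : (0 : ℝ) < ε := h2
    refine ⟨h1.1, ?_⟩
    rw [hsplit ε hε]
    have h4 := EP_finsupp hN hfin.toFinset r hr0 _ hrb hε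
    have h5 : (EP (nm F) ε fun v => (a v).re) + EP (nm F) ε r -
        Real.log ‖L (w + 1 + τ * I + ε)‖ =
        ((EP (nm F) ε fun v => (a v).re) - Real.log ‖L (w + 1 + τ * I + ε)‖) +
          EP (nm F) ε r := by ring
    rw [h5]
    exact (abs_add_le _ _).trans (add_le_add h1.2 h4)
  have hEP1 : ∀ᶠ ε : ℝ in 𝓝[>] 0, (EP (nm F) ε fun _ => 1) ≤ 2 * lam ε := by
    filter_upwards [(EP_one F).eventually_lt_const (by norm_num : (1 : ℝ) < 2),
      lam_tendsto.eventually_gt_atTop 0] with ε h1 h2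
    rw [div_lt_iff₀ h2] at h1
    exact h1.le
  have hylam : ∀ᶠ ε : ℝ in 𝓝[>] 0,
      |EP (nm F) ε fun v => (y v).re| ≤ (2 * (b * n) : ℝ) * lam ε := by
    filter_upwards [hEP1, self_mem_nhdsWithin] with ε h1 h2
    have hε : (0 : ℝ) < ε := h2
    have hb1 : ∀ v, |(y v).re| ≤ b * n := fun v => (Complex.abs_re_le_norm _).trans (hyb v)
    have h3 : |EP (nm F) ε fun v => (y v).re| ≤ (b * n : ℝ) * EP (nm F) ε fun _ => 1 := by
      rw [abs_le]
      constructor
      · have h7 := EP_le hN hε (φ := fun v => (-1) * (y v).re) (B := b * n)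
          (fun v => by rw [abs_mul, abs_neg, abs_one, one_mul]; exact hb1 v) (b := b * n)
          (fun v => by have := (abs_le.1 (hb1 v)).1; linarith)
        rw [EP_const_mul] at h7
        linarith
      · exact EP_le hN hε hb1 fun v => (le_abs_self _).trans (hb1 v)
    refine h3.trans ?_
    calc (b * n : ℝ) * EP (nm F) ε (fun _ => 1) ≤ (b * n : ℝ) * (2 * lam ε) :=
          mul_le_mul_of_nonneg_left h1 (by positivity)
      _ = _ := by ring
  exact ⟨hmain.mono fun _ h => h.1, size_compare hylam (hmain.mono fun _ h => h.2)⟩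

open Classical in
/-- the norm of a class function for the height `τ` -/
noncomputable def nrm (U : Subgroup (GK F)) (τ : ℝ) (f : GK F ⧸ U → ℂ) : ℝ :=
  if τ = 0 then avR U (fun q => |(f q).re|) else 2 / Real.pi * avR U fun q => ‖f q‖

theorem nrm_nonneg (U : Subgroup (GK F)) (τ : ℝ) (f : GK F ⧸ U → ℂ) : 0 ≤ nrm U τ f := by
  unfold nrm
  have := Real.pi_pos
  split_ifs
  · exact avR_nonneg U fun q => abs_nonneg _
  · exact mul_nonneg (by positivity) (avR_nonneg U fun q => norm_nonneg _)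

/-- the combination of characters -/
noncomputable def comb (U : Subgroup (GK F)) [U.Normal] {κ : Type*} (K : Finset κ) {n : κ → ℕ}
    (ρ : ∀ k, Representation ℂ (GK F) (Fin (n k) → ℂ)) (hρ : ∀ k, ∀ u ∈ U, ρ k u = 1)
    (c : κ → ℝ) (q : GK F ⧸ U) : ℂ :=
  ∑ k ∈ K, (c k : ℂ) * (qrep U (ρ k) (hρ k)).character q⁻¹

/-- **The sup-norm inequality.** -/
theorem core1 (w : ℝ) (α : HeightOneSpectrum (𝓞 F) → Fin b → ℂ)
    (hα : ∀ᶠ v in cofinite, ∀ j, ‖α v j‖ = (nm F v : ℝ) ^ w)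
    (hreal : ∀ᶠ v in cofinite, (∑ j, α v j).im = 0)
    (U : Subgroup (GK F)) [U.Normal] (hU : IsOpen (U : Set (GK F))) [Finite (GK F ⧸ U)]
    {κ : Type*} (K : Finset κ) {n : κ → ℕ}
    (ρ : ∀ k, Representation ℂ (GK F) (Fin (n k) → ℂ)) (hρ : ∀ k, ∀ u ∈ U, ρ k u = 1)
    (τ : ℝ) (B : κ → HeightOneSpectrum (𝓞 F) → ℂ[X])
    (hB : ∀ k ∈ K, ∀ᶠ v in cofinite, ∀ σ : GK F, IsFrob v σ → ∀ z : ℂ,
      (B k v).eval z = ∏ j, LinearMap.det (1 - (α v j * z) • ρ k σ⁻¹))
    (hB0 : ∀ k ∈ K, ∀ v, (B k v).eval (((nm F v : ℕ) : ℂ) ^ (-(w + 1 + τ * I : ℂ))) ≠ 0)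
    (L : κ → ℂ → ℂ)
    (hL : ∀ k ∈ K, ∀ s : ℂ, w + 1 < s.re →
      L k s = ∏' v, ((B k v).eval (((nm F v : ℕ) : ℂ) ^ (-s)))⁻¹) (c : κ → ℝ) {η : ℝ}
    (hη : 0 < η) :
    ∀ᶠ ε : ℝ in 𝓝[>] 0,
      |∑ k ∈ K, c k * (Real.log ‖L k (w + 1 + τ * I + ε)‖ / Real.log (1 / ε))| ≤
        b * nrm U τ (comb U K ρ hρ c) + η := by
  classical
  let _ : Fintype (GK F ⧸ U) := Fintype.ofFinite _
  have hN : NormSys (nm F) := normSys
  choose σ hσ using exists_isFrob (F := F)
  set f := comb U K ρ hρ c with hf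
  have hfc : ∀ a x, f (x * a * x⁻¹) = f a := by
    intro a x
    rw [hf]
    unfold comb
    refine Finset.sum_congr rfl fun k _ => ?_
    have h1 : (x * a * x⁻¹)⁻¹ = x * a⁻¹ * x⁻¹ := by group
    rw [h1, Representation.char_conj]
  have hfi : ∀ q, f q⁻¹ = conj (f q) := by
    intro q
    rw [hf]
    unfold comb
    rw [map_sum]
    refine Finset.sum_congr rfl fun k _ => ?_
    rw [map_mul, Complex.conj_ofReal]
    congr 1
    obtain ⟨g, rfl⟩ := QuotientGroup.mk_surjective q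
    have h1 := char_conj_eq U (ρ k) (hρ k) g
    rw [inv_inv]
    exact h1.symm
  have hlim : Tendsto (fun ε : ℝ => (EP (nm F) ε fun v =>
      |(f (QuotientGroup.mk (σ v)) * zz τ v).re|) / lam ε) (𝓝[>] 0) (𝓝 (nrm U τ f)) := by
    unfold nrm
    split_ifs with h
    · subst h
      exact equi_zero U hU f hfc σ hσ
    · exact equi U hU f hfc hfi σ hσ h
  -- the sizes
  have hsz : ∀ k ∈ K, Tendsto (fun ε : ℝ => (EP (nm F) ε fun v => ((tr w α v : ℂ) *
        ((ρ k).character (σ v)⁻¹ * zz τ v)).re) / lam ε -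
        Real.log ‖L k (w + 1 + τ * I + ε)‖ / Real.log (1 / ε)) (𝓝[>] 0) (𝓝 0) := fun k hk =>
    (size_corr w α hα hreal U (ρ k) (hρ k) τ (B k) (hB k hk) (hB0 k hk) (L k) (hL k hk) σ hσ).2
  have hsum := tendsto_finsetSum K fun k hk => (hsz k hk).const_mul (c k)
  simp only [mul_zero, Finset.sum_const_zero] at hsum
  have h1 := (Metric.tendsto_nhds.1 hsum) (η / 2) (by positivity)
  have h2 : ∀ᶠ ε : ℝ in 𝓝[>] 0, (b : ℝ) * ((EP (nm F) ε fun v =>
      |(f (QuotientGroup.mk (σ v)) * zz τ v).re|) / lam ε) < b * nrm U τ f + η / 2 :=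
    (hlim.const_mul (b : ℝ)).eventually_lt_const (by linarith)
  filter_upwards [h1, h2, lam_tendsto.eventually_gt_atTop 0, self_mem_nhdsWithin]
    with ε h3 h4 h5 h6
  have hε : (0 : ℝ) < ε := h6
  rw [Real.dist_eq, sub_zero] at h3
  have hbk : ∀ k ∈ K, ∀ v : HeightOneSpectrum (𝓞 F), |c k * ((tr w α v : ℂ) *
      ((ρ k).character (σ v)⁻¹ * zz τ v)).re| ≤ |c k| * (b * n k) := by
    intro k _ v
    rw [abs_mul]
    refine mul_le_mul_of_nonneg_left ((Complex.abs_re_le_norm _).trans ?_) (abs_nonneg _)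
    rw [norm_mul, norm_mul, norm_zz, mul_one, Complex.norm_real, Real.norm_eq_abs]
    exact mul_le_mul (abs_tr_le w α v) (norm_char_le U (ρ k) (hρ k) _) (norm_nonneg _)
      (by positivity)
  have hcomb : ∑ k ∈ K, c k * ((EP (nm F) ε fun v => ((tr w α v : ℂ) *
        ((ρ k).character (σ v)⁻¹ * zz τ v)).re) / lam ε) =
      (EP (nm F) ε fun v => tr w α v * (f (QuotientGroup.mk (σ v)) * zz τ v).re) / lam ε := by
    have e1 : ∀ k ∈ K, c k * ((EP (nm F) ε fun v => ((tr w α v : ℂ) *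
        ((ρ k).character (σ v)⁻¹ * zz τ v)).re) / lam ε) =
        (EP (nm F) ε fun v => c k * ((tr w α v : ℂ) *
        ((ρ k).character (σ v)⁻¹ * zz τ v)).re) / lam ε := by
      intro k _
      rw [EP_const_mul, mul_div_assoc]
    rw [Finset.sum_congr rfl e1, ← Finset.sum_div, ← EP_sum hN hε K
      (fun k v => c k * ((tr w α v : ℂ) * ((ρ k).character (σ v)⁻¹ * zz τ v)).re)
      (fun k => |c k| * (b * n k)) hbk]
    congr 2
    funext v
    rw [← Complex.re_ofReal_mul, hf]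
    unfold comb
    rw [Finset.sum_mul, Finset.mul_sum, Complex.re_sum]
    refine Finset.sum_congr rfl fun k _ => ?_
    rw [← Complex.re_ofReal_mul]
    congr 1
    have e2 : (qrep U (ρ k) (hρ k)).character (QuotientGroup.mk (σ v))⁻¹ =
      (ρ k).character (σ v)⁻¹ := rfl
    rw [e2]
    ring
  have hfb : ∀ v : HeightOneSpectrum (𝓞 F), |(f (QuotientGroup.mk (σ v)) * zz τ v).re| ≤
      ∑ q, ‖f q‖ := by
    intro v
    refine (Complex.abs_re_le_norm _).trans ?_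
    rw [norm_mul, norm_zz, mul_one]
    exact Finset.single_le_sum (f := fun q => ‖f q‖) (fun q _ => norm_nonneg _)
      (Finset.mem_univ _)
  have hle : |EP (nm F) ε fun v => tr w α v * (f (QuotientGroup.mk (σ v)) * zz τ v).re| ≤
      b * EP (nm F) ε fun v => |(f (QuotientGroup.mk (σ v)) * zz τ v).re| := by
    have hpt : ∀ v : HeightOneSpectrum (𝓞 F),
        |tr w α v * (f (QuotientGroup.mk (σ v)) * zz τ v).re| ≤
        b * |(f (QuotientGroup.mk (σ v)) * zz τ v).re| := by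
      intro v
      rw [abs_mul]
      exact mul_le_mul_of_nonneg_right (abs_tr_le w α v) (abs_nonneg _)
    rw [← EP_const_mul]
    have hs1 : Summable fun v : HeightOneSpectrum (𝓞 F) =>
        (tr w α v * (f (QuotientGroup.mk (σ v)) * zz τ v).re) * (nm F v : ℝ) ^ (-(1 + ε)) :=
      summable_EP hN hε (B := b * ∑ q, ‖f q‖) fun v =>
        (hpt v).trans (mul_le_mul_of_nonneg_left (hfb v) (by positivity))
    have hs2 : Summable fun v : HeightOneSpectrum (𝓞 F) =>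
        (b * |(f (QuotientGroup.mk (σ v)) * zz τ v).re|) * (nm F v : ℝ) ^ (-(1 + ε)) :=
      summable_EP hN hε (B := b * ∑ q, ‖f q‖) fun v => by
        rw [abs_mul, abs_abs, abs_of_nonneg (Nat.cast_nonneg b)]
        exact mul_le_mul_of_nonneg_left (hfb v) (by positivity)
    unfold EP
    rw [← Real.norm_eq_abs]
    refine tsum_of_norm_bounded hs2.hasSum fun v => ?_
    rw [Real.norm_eq_abs, abs_mul, abs_of_nonneg (wP_nonneg ε v)]
    exact mul_le_mul_of_nonneg_right (hpt v) (wP_nonneg ε v)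
  have e3 : ∑ k ∈ K, c k * (Real.log ‖L k (w + 1 + τ * I + ε)‖ / Real.log (1 / ε)) =
      (∑ k ∈ K, c k * ((EP (nm F) ε fun v => ((tr w α v : ℂ) *
        ((ρ k).character (σ v)⁻¹ * zz τ v)).re) / lam ε)) -
      ∑ k ∈ K, c k * ((EP (nm F) ε fun v => ((tr w α v : ℂ) *
        ((ρ k).character (σ v)⁻¹ * zz τ v)).re) / lam ε -
        Real.log ‖L k (w + 1 + τ * I + ε)‖ / Real.log (1 / ε)) := by
    rw [← Finset.sum_sub_distrib]
    refine Finset.sum_congr rfl fun k _ => ?_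
    ring
  rw [e3, hcomb]
  refine (abs_sub _ _).trans ?_
  have h7 : |(EP (nm F) ε fun v => tr w α v * (f (QuotientGroup.mk (σ v)) * zz τ v).re) /
      lam ε| ≤ b * ((EP (nm F) ε fun v =>
      |(f (QuotientGroup.mk (σ v)) * zz τ v).re|) / lam ε) := by
    rw [abs_div, abs_of_pos h5, ← mul_div_assoc]
    exact div_le_div_of_nonneg_right hle h5.le
  linarith

end

end Pool.Agent.W353.L1
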