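import Pool.Agent.W353.L1.Core

/-! Correlations for several heights. -/

set_option autoImplicit false

namespace Pool.Agent.W353.L1

open Complex Filter Topology ComplexConjugate Pool.Agent.H341R2 NumberField IsDedekindDomain
  Pool.Agent.W401.Cheb Pool.Agent.W540.BE Polynomial

section
variable {F : Type} [Field F] [NumberField F] {b : ℕ}

/-- sums weighted by a bounded function -/
theorem EP_abs_le {φ ψ : HeightOneSpectrum (𝓞 F) → ℝ} {B : ℝ} (hψ : ∀ v, |ψ v| ≤ B)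
    (h : ∀ v, |φ v| ≤ ψ v) {ε : ℝ} (hε : 0 < ε) : |EP (nm F) ε φ| ≤ EP (nm F) ε ψ := by
  have hs2 := summable_EP (normSys (F := F)) hε hψ
  unfold EP
  rw [← Real.norm_eq_abs]
  refine tsum_of_norm_bounded hs2.hasSum fun v => ?_
  rw [Real.norm_eq_abs, abs_mul, abs_of_nonneg (wP_nonneg ε v)]
  exact mul_le_mul_of_nonneg_right (h v) (wP_nonneg ε v)

theorem EP_mono {φ ψ : HeightOneSpectrum (𝓞 F) → ℝ} {B B' : ℝ} (hφ : ∀ v, |φ v| ≤ B)
    (hψ : ∀ v, |ψ v| ≤ B') (h : ∀ v, φ v ≤ ψ v) {ε : ℝ} (hε : 0 < ε) :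
    EP (nm F) ε φ ≤ EP (nm F) ε ψ := by
  unfold EP
  exact Summable.tsum_le_tsum (fun v => mul_le_mul_of_nonneg_right (h v) (wP_nonneg ε v))
    (summable_EP normSys hε hφ) (summable_EP normSys hε hψ)

/-- the real part of a character value with a height -/
noncomputable def RR {n : ℕ} (ρ : Representation ℂ (GK F) (Fin n → ℂ)) (τ : ℝ)
    (σ : HeightOneSpectrum (𝓞 F) → GK F) (v : HeightOneSpectrum (𝓞 F)) : ℝ :=
  (ρ.character (σ v)⁻¹ * zz τ v).re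

theorem abs_RR_le (U : Subgroup (GK F)) [U.Normal] [Finite (GK F ⧸ U)] {n : ℕ}
    (ρ : Representation ℂ (GK F) (Fin n → ℂ)) (hρ : ∀ u ∈ U, ρ u = 1) (τ : ℝ)
    (σ : HeightOneSpectrum (𝓞 F) → GK F) (v : HeightOneSpectrum (𝓞 F)) :
    |RR ρ τ σ v| ≤ n := by
  unfold RR
  refine (Complex.abs_re_le_norm _).trans ?_
  rw [norm_mul, norm_zz, mul_one]
  exact norm_char_le U ρ hρ _

/-- **Upper bounds for linear combinations of sizes at several heights.** -/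
theorem core0 (w : ℝ) (α : HeightOneSpectrum (𝓞 F) → Fin b → ℂ)
    (hα : ∀ᶠ v in cofinite, ∀ j, ‖α v j‖ = (nm F v : ℝ) ^ w)
    (hreal : ∀ᶠ v in cofinite, (∑ j, α v j).im = 0)
    (U : Subgroup (GK F)) [U.Normal] [Finite (GK F ⧸ U)]
    {κ : Type*} (K : Finset κ) {n : κ → ℕ}
    (ρ : ∀ k, Representation ℂ (GK F) (Fin (n k) → ℂ)) (hρ : ∀ k ∈ K, ∀ u ∈ U, ρ k u = 1)
    (τ : κ → ℝ) (B : κ → HeightOneSpectrum (𝓞 F) → ℂ[X])
    (hB : ∀ k ∈ K, ∀ᶠ v in cofinite, ∀ σ : GK F, IsFrob v σ → ∀ z : ℂ,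
      (B k v).eval z = ∏ j, LinearMap.det (1 - (α v j * z) • ρ k σ⁻¹))
    (hB0 : ∀ k ∈ K, ∀ v, (B k v).eval (((nm F v : ℕ) : ℂ) ^ (-(w + 1 + τ k * I : ℂ))) ≠ 0)
    (L : κ → ℂ → ℂ)
    (hL : ∀ k ∈ K, ∀ s : ℂ, w + 1 < s.re →
      L k s = ∏' v, ((B k v).eval (((nm F v : ℕ) : ℂ) ^ (-s)))⁻¹)
    (σ : HeightOneSpectrum (𝓞 F) → GK F) (hσ : ∀ v, IsFrob v (σ v)) (c : κ → ℝ) {A : ℝ}
    (hA : ∀ η : ℝ, 0 < η → ∀ᶠ ε : ℝ in 𝓝[>] 0,
      (EP (nm F) ε fun v => |∑ k ∈ K, c k * RR (ρ k) (τ k) σ v|) / lam ε ≤ A + η)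
    {η : ℝ} (hη : 0 < η) :
    ∀ᶠ ε : ℝ in 𝓝[>] 0,
      |∑ k ∈ K, c k * (Real.log ‖L k (w + 1 + τ k * I + ε)‖ / Real.log (1 / ε))| ≤
        b * A + η := by
  classical
  have hN : NormSys (nm F) := normSys
  have hsz : ∀ k ∈ K, Tendsto (fun ε : ℝ => (EP (nm F) ε fun v => ((tr w α v : ℂ) *
        ((ρ k).character (σ v)⁻¹ * zz (τ k) v)).re) / lam ε -
        Real.log ‖L k (w + 1 + τ k * I + ε)‖ / Real.log (1 / ε)) (𝓝[>] 0) (𝓝 0) := fun k hk =>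
    (size_corr w α hα hreal U (ρ k) (hρ k hk) (τ k) (B k) (hB k hk) (hB0 k hk) (L k) (hL k hk)
      σ hσ).2
  have hsum := tendsto_finsetSum K fun k hk => (hsz k hk).const_mul (c k)
  simp only [mul_zero, Finset.sum_const_zero] at hsum
  have h1 := (Metric.tendsto_nhds.1 hsum) (η / 2) (by positivity)
  have h2 := hA (η / (2 * (b + 1))) (by positivity)
  filter_upwards [h1, h2, lam_tendsto.eventually_gt_atTop 0, self_mem_nhdsWithin]
    with ε h3 h4 h5 h6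
  have hε : (0 : ℝ) < ε := h6
  rw [Real.dist_eq, sub_zero] at h3
  have hRb : ∀ k ∈ K, ∀ v, |c k * RR (ρ k) (τ k) σ v| ≤ |c k| * n k := by
    intro k hk v
    rw [abs_mul]
    exact mul_le_mul_of_nonneg_left (abs_RR_le U (ρ k) (hρ k hk) _ _ _) (abs_nonneg _)
  have hbk : ∀ k ∈ K, ∀ v : HeightOneSpectrum (𝓞 F), |c k * ((tr w α v : ℂ) *
      ((ρ k).character (σ v)⁻¹ * zz (τ k) v)).re| ≤ |c k| * (b * n k) := by
    intro k hk v
    rw [abs_mul, Complex.re_ofReal_mul, abs_mul]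
    refine mul_le_mul_of_nonneg_left ?_ (abs_nonneg _)
    exact mul_le_mul (abs_tr_le w α v) (abs_RR_le U (ρ k) (hρ k hk) _ _ _) (abs_nonneg _)
      (by positivity)
  have hcomb : ∑ k ∈ K, c k * ((EP (nm F) ε fun v => ((tr w α v : ℂ) *
        ((ρ k).character (σ v)⁻¹ * zz (τ k) v)).re) / lam ε) =
      (EP (nm F) ε fun v => tr w α v * ∑ k ∈ K, c k * RR (ρ k) (τ k) σ v) / lam ε := by
    have e1 : ∀ k ∈ K, c k * ((EP (nm F) ε fun v => ((tr w α v : ℂ) *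
        ((ρ k).character (σ v)⁻¹ * zz (τ k) v)).re) / lam ε) =
        (EP (nm F) ε fun v => c k * ((tr w α v : ℂ) *
        ((ρ k).character (σ v)⁻¹ * zz (τ k) v)).re) / lam ε := by
      intro k _
      rw [EP_const_mul, mul_div_assoc]
    rw [Finset.sum_congr rfl e1, ← Finset.sum_div, ← EP_sum hN hε K
      (fun k v => c k * ((tr w α v : ℂ) * ((ρ k).character (σ v)⁻¹ * zz (τ k) v)).re)
      (fun k => |c k| * (b * n k)) hbk]
    congr 2
    funext v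
    rw [Finset.mul_sum]
    refine Finset.sum_congr rfl fun k _ => ?_
    rw [Complex.re_ofReal_mul]
    unfold RR
    ring
  have hWb : ∀ v, |∑ k ∈ K, c k * RR (ρ k) (τ k) σ v| ≤ ∑ k ∈ K, |c k| * n k := fun v =>
    (Finset.abs_sum_le_sum_abs _ _).trans (Finset.sum_le_sum fun k hk => hRb k hk v)
  have hle : |EP (nm F) ε fun v => tr w α v * ∑ k ∈ K, c k * RR (ρ k) (τ k) σ v| ≤
      b * EP (nm F) ε fun v => |∑ k ∈ K, c k * RR (ρ k) (τ k) σ v| := by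
    rw [← EP_const_mul]
    refine EP_abs_le (B := b * ∑ k ∈ K, |c k| * n k) (fun v => ?_) (fun v => ?_) hε
    · rw [abs_mul, abs_abs, abs_of_nonneg (Nat.cast_nonneg b)]
      exact mul_le_mul_of_nonneg_left (hWb v) (by positivity)
    · rw [abs_mul]
      exact mul_le_mul_of_nonneg_right (abs_tr_le w α v) (abs_nonneg _)
  have e3 : ∑ k ∈ K, c k * (Real.log ‖L k (w + 1 + τ k * I + ε)‖ / Real.log (1 / ε)) =
      (∑ k ∈ K, c k * ((EP (nm F) ε fun v => ((tr w α v : ℂ) *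
        ((ρ k).character (σ v)⁻¹ * zz (τ k) v)).re) / lam ε)) -
      ∑ k ∈ K, c k * ((EP (nm F) ε fun v => ((tr w α v : ℂ) *
        ((ρ k).character (σ v)⁻¹ * zz (τ k) v)).re) / lam ε -
        Real.log ‖L k (w + 1 + τ k * I + ε)‖ / Real.log (1 / ε)) := by
    rw [← Finset.sum_sub_distrib]
    refine Finset.sum_congr rfl fun k _ => ?_
    ring
  rw [e3, hcomb]
  refine (abs_sub _ _).trans ?_
  have h7 : |(EP (nm F) ε fun v => tr w α v * ∑ k ∈ K, c k * RR (ρ k) (τ k) σ v) /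
      lam ε| ≤ b * ((EP (nm F) ε fun v => |∑ k ∈ K, c k * RR (ρ k) (τ k) σ v|) / lam ε) := by
    rw [abs_div, abs_of_pos h5, ← mul_div_assoc]
    exact div_le_div_of_nonneg_right hle h5.le
  have h8 : (b : ℝ) * ((EP (nm F) ε fun v => |∑ k ∈ K, c k * RR (ρ k) (τ k) σ v|) / lam ε) ≤
      b * (A + η / (2 * (b + 1))) := mul_le_mul_of_nonneg_left h4 (by positivity)
  have h9 : (b : ℝ) * (η / (2 * (b + 1))) ≤ η / 2 := by
    rw [mul_div_assoc', div_le_div_iff₀ (by positivity) (by norm_num)]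
    nlinarith
  have h10 : (b : ℝ) * (A + η / (2 * (b + 1))) = b * A + b * (η / (2 * (b + 1))) := by ring
  linarith

end

end Pool.Agent.W353.L1
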