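import Pool.Agent.W353.L1.Two
import Pool.Agent.W540.BE.EC

/-! Elliptic curves: Frobenius eigenvalues with real sum. -/

set_option autoImplicit false

namespace Pool.Agent.W353.L1

open Complex Filter Topology ComplexConjugate NumberField IsDedekindDomain Pool.Agent.W540.BE
open Pool.Agent

/-- The Frobenius eigenvalues of an elliptic curve. -/
theorem ec_main (F : Type) [Field F] [NumberField F] (W : WeierstrassCurve (𝓞 F)) (hΔ : W.Δ ≠ 0)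
    {κ : Type*} (n : κ → ℕ)
    (ρ : ∀ k, Representation ℂ (W401.Cheb.GK F) (Fin (n k) → ℂ))
    (B : κ → HeightOneSpectrum (𝓞 F) → Polynomial ℂ)
    (hB : ∀ k, ∀ᶠ v in cofinite, ∀ σ : W401.Cheb.GK F, W401.Cheb.IsFrob v σ → ∀ z : ℂ,
      (B k v).eval z = LinearMap.det (1 - ((trv W v : ℂ) * z) • ρ k σ⁻¹ +
        (((nm F v : ℕ) : ℂ) * z ^ 2) • (ρ k σ⁻¹) ^ 2)) :
    ∃ α : HeightOneSpectrum (𝓞 F) → Fin 2 → ℂ,
      (∀ᶠ v in cofinite, ∀ j, ‖α v j‖ = (nm F v : ℝ) ^ (1 / 2 : ℝ)) ∧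
      (∀ᶠ v in cofinite, (∑ j, α v j).im = 0) ∧
      ∀ k, ∀ᶠ v in cofinite, ∀ σ : W401.Cheb.GK F, W401.Cheb.IsFrob v σ → ∀ z : ℂ,
        (B k v).eval z = ∏ j, LinearMap.det (1 - (α v j * z) • ρ k σ⁻¹) := by
  have h6 : (6 : 𝓞 F) ≠ 0 := by norm_num
  have hgood : ∀ᶠ v : HeightOneSpectrum (𝓞 F) in cofinite,
      (6 : 𝓞 F) ∉ v.asIdeal ∧ W.Δ ∉ v.asIdeal := by
    rw [Filter.eventually_cofinite]
    refine ((finite_mem_prime h6).union (finite_mem_prime hΔ)).subset fun v hv => ?_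
    rw [Set.mem_ofPred_eq, not_and_or, not_not, not_not] at hv
    exact hv
  have hex : ∀ v : HeightOneSpectrum (𝓞 F), ∃ α : Fin 2 → ℂ,
      ((6 : 𝓞 F) ∉ v.asIdeal ∧ W.Δ ∉ v.asIdeal) →
        (∀ j, ‖α j‖ = (nm F v : ℝ) ^ (1 / 2 : ℝ)) ∧ α 0 + α 1 = (trv W v : ℂ) ∧
          α 0 * α 1 = ((nm F v : ℕ) : ℂ) := by
    intro v
    by_cases h : (6 : 𝓞 F) ∉ v.asIdeal ∧ W.Δ ∉ v.asIdeal
    · have hpos : (0 : ℝ) < nm F v := by
        have := two_le_nm v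
        exact_mod_cast (by omega : 0 < nm F v)
      obtain ⟨α, h1, h2, h3⟩ := exists_roots hpos (hasse_v W v h.1 h.2)
      refine ⟨α, fun _ => ⟨h1, ?_, ?_⟩⟩
      · rw [h2]; simp
      · rw [h3]; simp
    · exact ⟨0, fun h' => absurd h' h⟩
  choose α hα using hex
  refine ⟨α, hgood.mono fun v hv => (hα v hv).1, hgood.mono fun v hv => ?_, fun k => ?_⟩
  · rw [Fin.sum_univ_two, (hα v hv).2.1, Complex.intCast_im]
  · filter_upwards [hgood, hB k] with v h1 h2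
    intro σ hσ z
    rw [det_two, (hα v h1).2.1, (hα v h1).2.2]
    exact h2 σ hσ z

end Pool.Agent.W353.L1
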