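import Pool.Agent.W353.L1.Complete

/-! Orders of the Artin twists on the edge: consequences of the sup-norm inequality. -/

set_option autoImplicit false

namespace Pool.Agent.W353.L1

open Complex Filter Topology ComplexConjugate Pool.Agent.H341R2 NumberField IsDedekindDomain
  Pool.Agent.W401.Cheb Pool.Agent.W540.BE Polynomial

section
variable {F : Type} [Field F] [NumberField F]

/-- `‖·‖₁ ≤ ‖·‖₂` -/
theorem avR_sq_le (U : Subgroup (GK F)) [Finite (GK F ⧸ U)] (ψ : GK F ⧸ U → ℝ) :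
    (avR U ψ) ^ 2 ≤ avR U fun q => ψ q ^ 2 := by
  classical
  let _ : Fintype (GK F ⧸ U) := Fintype.ofFinite _
  unfold avR
  rw [finsum_eq_sum_of_fintype, finsum_eq_sum_of_fintype, mul_pow]
  have h0 : (0 : ℝ) < Nat.card (GK F ⧸ U) := by exact_mod_cast Nat.card_pos
  have h1 : (∑ q, ψ q) ^ 2 ≤ (Nat.card (GK F ⧸ U) : ℝ) * ∑ q, ψ q ^ 2 := by
    have := sq_sum_le_card_mul_sum_sq (s := (Finset.univ : Finset (GK F ⧸ U))) (f := ψ)
    rw [Finset.card_univ, ← Nat.card_eq_fintype_card] at this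
    exact this
  calc ((Nat.card (GK F ⧸ U) : ℝ)⁻¹) ^ 2 * (∑ q, ψ q) ^ 2
      ≤ ((Nat.card (GK F ⧸ U) : ℝ)⁻¹) ^ 2 * ((Nat.card (GK F ⧸ U) : ℝ) * ∑ q, ψ q ^ 2) :=
        mul_le_mul_of_nonneg_left h1 (sq_nonneg _)
    _ = (Nat.card (GK F ⧸ U) : ℝ)⁻¹ * ∑ q, ψ q ^ 2 := by
        field_simp

theorem nrm_le (U : Subgroup (GK F)) [Finite (GK F ⧸ U)] (t : ℝ) (f : GK F ⧸ U → ℂ) :
    nrm U t f ≤ (if t = 0 then 1 else 2 / Real.pi) * avR U fun q => ‖f q‖ := by
  classical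
  let _ : Fintype (GK F ⧸ U) := Fintype.ofFinite _
  unfold nrm
  split_ifs with h
  · rw [one_mul]
    unfold avR
    rw [finsum_eq_sum_of_fintype, finsum_eq_sum_of_fintype]
    refine mul_le_mul_of_nonneg_left ?_ (by positivity)
    exact Finset.sum_le_sum fun q _ => Complex.abs_re_le_norm _
  · exact le_rfl

variable (U : Subgroup (GK F)) [U.Normal] {κ : Type*} {n : κ → ℕ}
    (ρ : ∀ k, Representation ℂ (GK F) (Fin (n k) → ℂ)) (hρ : ∀ k, ∀ u ∈ U, ρ k u = 1)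

/-- the character of a representation as a hermitian class function -/
noncomputable def chF [Finite (GK F ⧸ U)] (k : κ) : CF U where
  f q := (qrep U (ρ k) (hρ k)).character q⁻¹
  cls a x := by
    have h1 : (x * a * x⁻¹)⁻¹ = x * a⁻¹ * x⁻¹ := by group
    rw [h1, Representation.char_conj]
  herm q := by rw [char_inv (qrep U (ρ k) (hρ k)) q⁻¹]

theorem chF_R [Finite (GK F ⧸ U)] (k : κ) (t : ℝ) (σ : HeightOneSpectrum (𝓞 F) → GK F)
    (v : HeightOneSpectrum (𝓞 F)) : (chF U ρ hρ k).R t σ v = RR (ρ k) t σ v := rfl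

/-- orthonormality in the form of mean values -/
theorem avC_ortho [Finite (GK F ⧸ U)] {k l : κ} (hk : (ρ k).IsIrreducible)
    (hl : (ρ l).IsIrreducible) [Decidable (Nonempty ((ρ k).Equiv (ρ l)))] :
    avC U (fun q => (chF U ρ hρ k).f q * conj ((chF U ρ hρ l).f q)) =
      if Nonempty ((ρ k).Equiv (ρ l)) then 1 else 0 := by
  classical
  let _ : Fintype (GK F ⧸ U) := Fintype.ofFinite _
  have h1 := ortho U (ρ k) (hρ k) hk (ρ l) (hρ l) hl
  unfold avC
  have e : ∑ᶠ q, (chF U ρ hρ k).f q * conj ((chF U ρ hρ l).f q) =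
      ∑ᶠ q : GK F ⧸ U, (qrep U (ρ k) (hρ k)).character q *
      (qrep U (ρ l) (hρ l)).character q⁻¹ := by
    rw [finsum_eq_sum_of_fintype, finsum_eq_sum_of_fintype, ← Equiv.sum_comp (Equiv.inv _)]
    refine Finset.sum_congr rfl fun q _ => ?_
    change (qrep U (ρ k) (hρ k)).character (q⁻¹)⁻¹ *
      conj ((qrep U (ρ l) (hρ l)).character (q⁻¹)⁻¹) = _
    rw [inv_inv, ← char_inv (qrep U (ρ l) (hρ l)) q]
  rw [e, h1]
  by_cases h : Nonempty ((ρ k).Equiv (ρ l))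
  · rw [if_pos h, if_pos h]
  · rw [if_neg h, if_neg h]

theorem sq_one [Finite (GK F ⧸ U)] {k : κ} (hk : (ρ k).IsIrreducible) :
    (chF U ρ hρ k).sq = 1 := by
  classical
  have h := avC_ortho U ρ hρ hk hk
  rw [if_pos ⟨Representation.Equiv.refl _⟩] at h
  have h2 : (fun q => (chF U ρ hρ k).f q * conj ((chF U ρ hρ k).f q)) =
      fun q => ((‖(chF U ρ hρ k).f q‖ ^ 2 : ℝ) : ℂ) := by
    funext q
    rw [Complex.mul_conj, Complex.normSq_eq_norm_sq]
  rw [h2, avC_ofReal] at h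
  exact_mod_cast h

include hρ in
theorem dim_pos [Finite (GK F ⧸ U)] {k : κ} (hk : (ρ k).IsIrreducible) : 0 < n k := by
  classical
  let _ : Fintype (GK F ⧸ U) := Fintype.ofFinite _
  by_contra h
  have h0 : n k = 0 := by omega
  have h1 := sq_one U ρ hρ hk
  have h2 : ∀ q, ‖(chF U ρ hρ k).f q‖ ^ 2 = 0 := by
    intro q
    obtain ⟨g, hg⟩ := QuotientGroup.mk_surjective q⁻¹
    have h3 : (chF U ρ hρ k).f q = (ρ k).character g := by
      change (qrep U (ρ k) (hρ k)).character q⁻¹ = _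
      rw [← hg]
      rfl
    have h4 := norm_char_le U (ρ k) (hρ k) g
    have h5 : (n k : ℝ) = 0 := by exact_mod_cast h0
    rw [h3]
    have : ‖(ρ k).character g‖ = 0 := le_antisymm (h4.trans h5.le) (norm_nonneg _)
    rw [this]
    norm_num
  unfold CF.sq avR at h1
  rw [finsum_eq_sum_of_fintype] at h1
  simp only [h2, Finset.sum_const_zero, mul_zero] at h1
  exact zero_ne_one h1

theorem mul_sq_pos [Finite (GK F ⧸ U)] {k l : κ} (hk : (ρ k).IsIrreducible)
    (hl : (ρ l).IsIrreducible) : 0 < ((chF U ρ hρ k).mul (chF U ρ hρ l)).sq := by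
  classical
  let _ : Fintype (GK F ⧸ U) := Fintype.ofFinite _
  unfold CF.sq avR
  rw [finsum_eq_sum_of_fintype]
  have h0 : (0 : ℝ) < Nat.card (GK F ⧸ U) := by exact_mod_cast Nat.card_pos
  refine mul_pos (inv_pos.2 h0) ?_
  have h1 : 0 < ‖((chF U ρ hρ k).mul (chF U ρ hρ l)).f 1‖ ^ 2 := by
    have h2 : ((chF U ρ hρ k).mul (chF U ρ hρ l)).f 1 = (n k : ℂ) * n l := by
      change (qrep U (ρ k) (hρ k)).character 1⁻¹ * (qrep U (ρ l) (hρ l)).character 1⁻¹ = _
      rw [inv_one, Representation.char_one, Representation.char_one, Module.finrank_fin_fun,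
        Module.finrank_fin_fun]
    rw [h2, norm_mul, Complex.norm_natCast, Complex.norm_natCast]
    have := dim_pos U ρ hρ hk
    have := dim_pos U ρ hρ hl
    positivity
  refine lt_of_lt_of_le h1 ?_
  exact Finset.single_le_sum (f := fun q => ‖((chF U ρ hρ k).mul (chF U ρ hρ l)).f q‖ ^ 2)
    (fun q _ => sq_nonneg _) (Finset.mem_univ _)

/-- limits of the sizes -/
theorem lim_le {K : Finset κ} {x : κ → ℝ → ℝ} {m : κ → ℤ}
    (hx : ∀ k ∈ K, Tendsto (x k) (𝓝[>] 0) (𝓝 (-(m k : ℝ)))) (c : κ → ℝ) {A : ℝ}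
    (h : ∀ η : ℝ, 0 < η → ∀ᶠ ε : ℝ in 𝓝[>] 0, |∑ k ∈ K, c k * x k ε| ≤ A + η) :
    |∑ k ∈ K, c k * m k| ≤ A := by
  refine le_of_forall_pos_le_add fun η hη => ?_
  have h1 : Tendsto (fun ε => |∑ k ∈ K, c k * x k ε|) (𝓝[>] 0)
      (𝓝 |∑ k ∈ K, c k * (-(m k : ℝ))|) :=
    (tendsto_finsetSum _ fun k hk => (hx k hk).const_mul (c k)).abs
  have e : |∑ k ∈ K, c k * (-(m k : ℝ))| = |∑ k ∈ K, c k * m k| := by
    rw [← abs_neg (∑ k ∈ K, c k * (m k : ℝ)), ← Finset.sum_neg_distrib]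
    congr 1
    exact Finset.sum_congr rfl fun k _ => by ring
  rw [e] at h1
  exact le_of_tendsto h1 (h η hη)

end

section
variable {F : Type} [Field F] [NumberField F] {b : ℕ} (w : ℝ)
    (α : HeightOneSpectrum (𝓞 F) → Fin b → ℂ)
    (hα : ∀ᶠ v in cofinite, ∀ j, ‖α v j‖ = (nm F v : ℝ) ^ w)
    (hreal : ∀ᶠ v in cofinite, (∑ j, α v j).im = 0)
    (U : Subgroup (GK F)) [U.Normal] (hU : IsOpen (U : Set (GK F))) [Finite (GK F ⧸ U)]
    {κ : Type*} [Fintype κ] {n : κ → ℕ}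
    (ρ : ∀ k, Representation ℂ (GK F) (Fin (n k) → ℂ)) (hρ : ∀ k, ∀ u ∈ U, ρ k u = 1)
    (τ : κ → ℝ) (B : κ → HeightOneSpectrum (𝓞 F) → ℂ[X])
    (hB : ∀ k, ∀ᶠ v in cofinite, ∀ σ : GK F, IsFrob v σ → ∀ z : ℂ,
      (B k v).eval z = ∏ j, LinearMap.det (1 - (α v j * z) • ρ k σ⁻¹))
    (hB0 : ∀ k, ∀ v, (B k v).eval (((nm F v : ℕ) : ℂ) ^ (-(w + 1 + τ k * I : ℂ))) ≠ 0)
    (L : κ → ℂ → ℂ)
    (hL : ∀ k, ∀ s : ℂ, w + 1 < s.re →
      L k s = ∏' v, ((B k v).eval (((nm F v : ℕ) : ℂ) ^ (-s)))⁻¹)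

/-- the size -/
noncomputable def xs (k : κ) (ε : ℝ) : ℝ :=
  Real.log ‖L k (w + 1 + τ k * I + ε)‖ / Real.log (1 / ε)

include hα hreal hU hB hB0 hL in
/-- sizes at one height -/
theorem fin1 (t : ℝ) (c : κ → ℝ) (hc : ∀ k, c k ≠ 0 → τ k = t) {η : ℝ} (hη : 0 < η) :
    ∀ᶠ ε : ℝ in 𝓝[>] 0, |∑ k, c k * xs w τ L k ε| ≤
      b * nrm U t (comb U Finset.univ ρ hρ c) + η := by
  classical
  set K : Finset κ := Finset.univ.filter fun k => c k ≠ 0 with hK
  have hKt : ∀ k ∈ K, τ k = t := fun k hk => hc k (Finset.mem_filter.1 hk).2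
  have h1 := core1 w α hα hreal U hU K ρ hρ t B (fun k _ => hB k)
    (fun k hk v => by rw [← hKt k hk]; exact hB0 k v) L (fun k _ => hL k) c hη
  have e1 : comb U K ρ hρ c = comb U Finset.univ ρ hρ c := by
    funext q
    unfold comb
    refine Finset.sum_subset (Finset.subset_univ _) fun k _ hk => ?_
    have : c k = 0 := by
      by_contra h
      exact hk (Finset.mem_filter.2 ⟨Finset.mem_univ _, h⟩)
    rw [this]
    simp
  rw [e1] at h1
  filter_upwards [h1] with ε h2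
  have e2 : ∑ k, c k * xs w τ L k ε =
      ∑ k ∈ K, c k * (Real.log ‖L k (w + 1 + t * I + ε)‖ / Real.log (1 / ε)) := by
    symm
    have e3 : ∑ k ∈ K, c k * (Real.log ‖L k (w + 1 + t * I + ε)‖ / Real.log (1 / ε)) =
        ∑ k ∈ K, c k * xs w τ L k ε := by
      refine Finset.sum_congr rfl fun k hk => ?_
      unfold xs
      rw [hKt k hk]
    rw [e3]
    refine Finset.sum_subset (Finset.subset_univ _) fun k _ hk => ?_
    have : c k = 0 := by
      by_contra h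
      exact hk (Finset.mem_filter.2 ⟨Finset.mem_univ _, h⟩)
    rw [this, zero_mul]
  rw [e2]
  exact h2

variable (m : κ → ℤ) (hm : ∀ k, Tendsto (xs w τ L k) (𝓝[>] 0) (𝓝 (-(m k : ℝ))))

include hα hreal hU hB hB0 hL hm in
/-- orders at one height -/
theorem fin2 (t : ℝ) (c : κ → ℝ) (hc : ∀ k, c k ≠ 0 → τ k = t) :
    |∑ k, c k * m k| ≤ b * nrm U t (comb U Finset.univ ρ hρ c) :=
  lim_le (fun k _ => hm k) c fun _ hη =>
    fin1 w α hα hreal U hU ρ hρ τ B hB hB0 L hL t c hc hη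

include hα hreal hU hρ hB hB0 hL hm in
/-- complete families: the virtual character is bounded -/
theorem fin_complete (t : ℝ) (K : Finset κ) (hK : ∀ k ∈ K, τ k = t)
    (hirr : ∀ k ∈ K, (ρ k).IsIrreducible)
    (hne : ∀ k ∈ K, ∀ l ∈ K, k ≠ l → IsEmpty ((ρ k).Equiv (ρ l)))
    (hsum : ∑ k ∈ K, n k ^ 2 = Nat.card (GK F ⧸ U)) (g : GK F) :
    ‖∑ k ∈ K, (m k : ℂ) * (ρ k).character g‖ ≤ b * (if t = 0 then 1 else 2 / Real.pi) := by
  classical
  let _ : Fintype (GK F ⧸ U) := Fintype.ofFinite _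
  set r : ∀ k, Representation ℂ (GK F ⧸ U) (Fin (n k) → ℂ) := fun k => qrep U (ρ k) (hρ k)
    with hr
  have hirr' : ∀ k ∈ K, (r k).IsIrreducible := fun k hk => qrep_irr U (ρ k) (hρ k) (hirr k hk)
  have hne' : ∀ k ∈ K, ∀ l ∈ K, k ≠ l → IsEmpty ((r k).Equiv (r l)) := by
    intro k hk l hl hkl
    rw [← not_nonempty_iff, hr, qrep_equiv U (ρ k) (hρ k) (ρ l) (hρ l), not_nonempty_iff]
    exact hne k hk l hl hkl
  set θ : ℂ := ∑ k ∈ K, (m k : ℂ) * (ρ k).character g with hθ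
  set u : ℂ := if θ = 0 then 1 else conj θ / (‖θ‖ : ℂ) with hu
  have hu1 : ‖u‖ = 1 := by
    rw [hu]
    split_ifs with h
    · exact norm_one
    · rw [norm_div, Complex.norm_conj, Complex.norm_real, norm_norm,
        div_self (norm_ne_zero_iff.2 h)]
  have huθ : (u * θ).re = ‖θ‖ := by
    rw [hu]
    split_ifs with h
    · rw [h]; simp
    · rw [div_mul_eq_mul_div, mul_comm (conj θ) θ, Complex.mul_conj, Complex.normSq_eq_norm_sq,
        ← Complex.ofReal_div, Complex.ofReal_re, sq, mul_div_assoc,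
        div_self (norm_ne_zero_iff.2 h), mul_one]
  set c : κ → ℝ := fun k => if k ∈ K then (u * (ρ k).character g).re else 0 with hc
  have h1 := fin2 w α hα hreal U hU ρ hρ τ B hB hB0 L hL m hm t c (by
    intro k hk
    rw [hc] at hk
    simp only at hk
    split_ifs at hk with h
    · exact hK k h
    · exact absurd rfl hk)
  have e1 : ∑ k, c k * m k = ‖θ‖ := by
    rw [← huθ, hθ, Finset.mul_sum, Complex.re_sum]
    rw [← Finset.sum_subset (Finset.subset_univ K) fun k _ hk => by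
      rw [hc]; simp only; rw [if_neg hk, zero_mul]]
    refine Finset.sum_congr rfl fun k hk => ?_
    rw [hc]
    simp only
    rw [if_pos hk]
    have e2 : u * ((m k : ℂ) * (ρ k).character g) =
        ((m k : ℝ) : ℂ) * (u * (ρ k).character g) := by
      push_cast
      ring
    rw [e2, Complex.re_ofReal_mul]
    ring
  rw [e1, abs_of_nonneg (norm_nonneg _)] at h1
  refine h1.trans (mul_le_mul_of_nonneg_left ?_ (by positivity))
  refine (nrm_le U t _).trans ?_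
  have h2 : avR U (fun q => ‖comb U Finset.univ ρ hρ c q‖) ≤ 1 := by
    have h3 := comb_le K r hirr' hne' hsum (QuotientGroup.mk g) u hu1
    have e3 : ∀ q, comb U Finset.univ ρ hρ c q =
        ∑ k ∈ K, (((u * (r k).character (QuotientGroup.mk g)).re : ℝ) : ℂ) *
          (r k).character q⁻¹ := by
      intro q
      unfold comb
      rw [← Finset.sum_subset (Finset.subset_univ K) fun k _ hk => by
        rw [hc]; simp only; rw [if_neg hk]; simp]
      refine Finset.sum_congr rfl fun k hk => ?_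
      rw [hc]
      simp only
      rw [if_pos hk]
      rfl
    unfold avR
    rw [finsum_eq_sum_of_fintype]
    simp only [e3]
    have h0 : (0 : ℝ) < Nat.card (GK F ⧸ U) := by exact_mod_cast Nat.card_pos
    calc (Nat.card (GK F ⧸ U) : ℝ)⁻¹ * ∑ q, ‖∑ k ∈ K,
          (((u * (r k).character (QuotientGroup.mk g)).re : ℝ) : ℂ) * (r k).character q⁻¹‖
        ≤ (Nat.card (GK F ⧸ U) : ℝ)⁻¹ * Nat.card (GK F ⧸ U) :=
          mul_le_mul_of_nonneg_left h3 (by positivity)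
      _ = 1 := inv_mul_cancel₀ h0.ne'
  have h4 : (0 : ℝ) ≤ if t = 0 then 1 else 2 / Real.pi := by
    have := Real.pi_pos
    split_ifs <;> positivity
  calc (if t = 0 then 1 else 2 / Real.pi) * avR U (fun q => ‖comb U Finset.univ ρ hρ c q‖)
      ≤ (if t = 0 then 1 else 2 / Real.pi) * 1 := mul_le_mul_of_nonneg_left h2 h4
    _ = _ := mul_one _

end

end Pool.Agent.W353.L1
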