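import Pool.Agent.W540.BE.Core3

/-! Mean values of class functions with a height. -/

set_option autoImplicit false

namespace Pool.Agent.W353.L1

open Complex Filter Topology ComplexConjugate Pool.Agent.H341R2 NumberField IsDedekindDomain
  Pool.Agent.W401.Cheb Pool.Agent.W540.BE

section
variable {F : Type} [Field F] [NumberField F]

/-- the mean value over the finite quotient -/
noncomputable def avC (U : Subgroup (GK F)) (ψ : GK F ⧸ U → ℂ) : ℂ :=
  (Nat.card (GK F ⧸ U) : ℂ)⁻¹ * ∑ᶠ q, ψ q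

/-- the mean value over the finite quotient -/
noncomputable def avR (U : Subgroup (GK F)) (ψ : GK F ⧸ U → ℝ) : ℝ :=
  (Nat.card (GK F ⧸ U) : ℝ)⁻¹ * ∑ᶠ q, ψ q

theorem avC_ofReal (U : Subgroup (GK F)) [Finite (GK F ⧸ U)] (ψ : GK F ⧸ U → ℝ) :
    avC U (fun q => (ψ q : ℂ)) = (avR U ψ : ℂ) := by
  classical
  let _ : Fintype (GK F ⧸ U) := Fintype.ofFinite _
  unfold avC avR
  rw [finsum_eq_sum_of_fintype, finsum_eq_sum_of_fintype]
  push_cast
  rfl

/-- mean values of class functions with a height, in the case of a real mean value -/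
theorem cheb_edge (U : Subgroup (GK F)) [U.Normal] (hU : IsOpen (U : Set (GK F)))
    [Finite (GK F ⧸ U)]
    (ψ : GK F ⧸ U → ℂ) (hψ : ∀ a g, ψ (g * a * g⁻¹) = ψ a) (c : ℝ) (hc : avC U ψ = c)
    (σ : HeightOneSpectrum (𝓞 F) → GK F) (hσ : ∀ v, IsFrob v (σ v)) (τ : ℝ) :
    Tendsto (fun ε : ℝ => (EP (nm F) ε fun v => (ψ (QuotientGroup.mk (σ v)) *
      ((nm F v : ℕ) : ℂ) ^ (-(τ * I))).re) / lam ε)
      (𝓝[>] 0) (𝓝 (if τ = 0 then c else 0)) := by
  classical
  let _ : Fintype (GK F ⧸ U) := Fintype.ofFinite _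
  have hb : ∀ v : HeightOneSpectrum (𝓞 F), ‖ψ (QuotientGroup.mk (σ v))‖ ≤ ∑ q, ‖ψ q‖ :=
    fun v => Finset.single_le_sum (f := fun q => ‖ψ q‖) (fun q _ => norm_nonneg _)
      (Finset.mem_univ _)
  have h1 := cheb_mean U hU ψ hψ σ hσ
  have h2 : (Nat.card (GK F ⧸ U) : ℂ)⁻¹ * ∑ᶠ q, ψ q = (c : ℂ) := hc
  rw [h2] at h1
  exact mean_edge hb c h1 τ

/-- the mean value of a hermitian function is real -/
theorem avC_real (U : Subgroup (GK F)) [U.Normal] [Finite (GK F ⧸ U)] (ψ : GK F ⧸ U → ℂ)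
    (h : ∀ q, ψ q⁻¹ = conj (ψ q)) : avC U ψ = ((avC U ψ).re : ℂ) := by
  classical
  let _ : Fintype (GK F ⧸ U) := Fintype.ofFinite _
  have h1 : conj (avC U ψ) = avC U ψ := by
    unfold avC
    rw [finsum_eq_sum_of_fintype, map_mul, map_inv₀, Complex.conj_natCast, map_sum]
    congr 1
    rw [← Equiv.sum_comp (Equiv.inv (GK F ⧸ U))]
    refine Finset.sum_congr rfl fun q _ => ?_
    rw [Equiv.inv_apply, h, Complex.conj_conj]
  exact (Complex.conj_eq_iff_re.1 h1).symm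

end

end Pool.Agent.W353.L1
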