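import Pool.Agent.W353.L1.Final

/-! Degree two: at most one twist off the real point. -/

set_option autoImplicit false

namespace Pool.Agent.W353.L1

open Complex Filter Topology ComplexConjugate Pool.Agent.H341R2 NumberField IsDedekindDomain
  Pool.Agent.W401.Cheb Pool.Agent.W540.BE Polynomial

section
variable {F : Type} [Field F] [NumberField F] (w : ℝ)
    (α : HeightOneSpectrum (𝓞 F) → Fin 2 → ℂ)
    (hα : ∀ᶠ v in cofinite, ∀ j, ‖α v j‖ = (nm F v : ℝ) ^ w)
    (hreal : ∀ᶠ v in cofinite, (∑ j, α v j).im = 0)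
    (U : Subgroup (GK F)) [U.Normal] (hU : IsOpen (U : Set (GK F))) [Finite (GK F ⧸ U)]
    {κ : Type*} [Fintype κ] {n : κ → ℕ}
    (ρ : ∀ k, Representation ℂ (GK F) (Fin (n k) → ℂ)) (hρ : ∀ k, ∀ u ∈ U, ρ k u = 1)
    (τ : κ → ℝ) (B : κ → HeightOneSpectrum (𝓞 F) → ℂ[X])
    (hB : ∀ k, ∀ᶠ v in cofinite, ∀ σ : GK F, IsFrob v σ → ∀ z : ℂ,
      (B k v).eval z = ∏ j, LinearMap.det (1 - (α v j * z) • ρ k σ⁻¹))
    (hB0 : ∀ k, ∀ v, (B k v).eval (((nm F v : ℕ) : ℂ) ^ (-(w + 1 + τ k * I : ℂ))) ≠ 0)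
    (L : κ → ℂ → ℂ)
    (hL : ∀ k, ∀ s : ℂ, w + 1 < s.re →
      L k s = ∏' v, ((B k v).eval (((nm F v : ℕ) : ℂ) ^ (-s)))⁻¹)
    (m : κ → ℤ) (hm : ∀ k, Tendsto (xs w τ L k) (𝓝[>] 0) (𝓝 (-(m k : ℝ))))

omit [Fintype κ] in
theorem avR_pair {k l : κ} (hk : (ρ k).IsIrreducible) (hl : (ρ l).IsIrreducible)
    (hne : IsEmpty ((ρ k).Equiv (ρ l))) (hne' : IsEmpty ((ρ l).Equiv (ρ k))) (c d : ℝ) :
    avR U (fun q => ‖(c : ℂ) * (chF U ρ hρ k).f q + d * (chF U ρ hρ l).f q‖ ^ 2) =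
      c ^ 2 + d ^ 2 := by
  classical
  let _ : Fintype (GK F ⧸ U) := Fintype.ofFinite _
  have h1 := avC_ortho U ρ hρ hk hk
  have h2 := avC_ortho U ρ hρ hl hl
  have h3 := avC_ortho U ρ hρ hk hl
  have h4 := avC_ortho U ρ hρ hl hk
  rw [if_pos ⟨Representation.Equiv.refl _⟩] at h1 h2
  rw [if_neg (not_nonempty_iff.2 hne)] at h3
  rw [if_neg (not_nonempty_iff.2 hne')] at h4
  have e : ((avR U (fun q => ‖(c : ℂ) * (chF U ρ hρ k).f q + d * (chF U ρ hρ l).f q‖ ^ 2) : ℝ) :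
      ℂ) = c ^ 2 + d ^ 2 := by
    rw [← avC_ofReal]
    have e1 : (fun q => ((‖(c : ℂ) * (chF U ρ hρ k).f q +
        d * (chF U ρ hρ l).f q‖ ^ 2 : ℝ) : ℂ)) = fun q =>
        (c : ℂ) ^ 2 * ((chF U ρ hρ k).f q * conj ((chF U ρ hρ k).f q)) +
        (d : ℂ) ^ 2 * ((chF U ρ hρ l).f q * conj ((chF U ρ hρ l).f q)) +
        ((c * d : ℂ) * ((chF U ρ hρ k).f q * conj ((chF U ρ hρ l).f q)) +
        (c * d : ℂ) * ((chF U ρ hρ l).f q * conj ((chF U ρ hρ k).f q))) := by
      funext q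
      rw [← Complex.normSq_eq_norm_sq, ← Complex.mul_conj, map_add, map_mul, map_mul,
        Complex.conj_ofReal, Complex.conj_ofReal]
      ring
    rw [e1]
    unfold avC at h1 h2 h3 h4 ⊢
    rw [finsum_eq_sum_of_fintype] at h1 h2 h3 h4 ⊢
    rw [Finset.sum_add_distrib, Finset.sum_add_distrib, Finset.sum_add_distrib,
      ← Finset.mul_sum, ← Finset.mul_sum, ← Finset.mul_sum, ← Finset.mul_sum]
    linear_combination (c : ℂ) ^ 2 * h1 + (d : ℂ) ^ 2 * h2 + (c * d : ℂ) * h3 + (c * d : ℂ) * h4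
  exact_mod_cast e

include hα hreal hU hρ hB hB0 hL hm in
/-- the order is at most one off the real point -/
theorem fin_single {k : κ} (hk : (ρ k).IsIrreducible) (ht : τ k ≠ 0) : |m k| ≤ 1 := by
  classical
  let _ : Fintype (GK F ⧸ U) := Fintype.ofFinite _
  have h1 := fin2 w α hα hreal U hU ρ hρ τ B hB hB0 L hL m hm (τ k) (Pi.single k 1) (by
    intro l hl
    by_cases h : l = k
    · rw [h]
    · exact absurd (Pi.single_eq_of_ne h 1) hl)
  have e1 : ∑ l, (Pi.single k 1 : κ → ℝ) l * m l = m k := by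
    rw [Finset.sum_eq_single k]
    · rw [Pi.single_eq_same, one_mul]
    · intro l _ hl
      rw [Pi.single_eq_of_ne hl, zero_mul]
    · intro h
      exact absurd (Finset.mem_univ _) h
  have e2 : ∀ q, comb U Finset.univ ρ hρ (Pi.single k 1) q = (chF U ρ hρ k).f q := by
    intro q
    unfold comb
    rw [Finset.sum_eq_single k]
    · rw [Pi.single_eq_same, Complex.ofReal_one, one_mul]
      rfl
    · intro l _ hl
      rw [Pi.single_eq_of_ne hl, Complex.ofReal_zero, zero_mul]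
    · intro h
      exact absurd (Finset.mem_univ _) h
  have h2 : avR U (fun q => ‖comb U Finset.univ ρ hρ (Pi.single k 1) q‖) ≤ 1 := by
    have h3 := avR_sq_le U (fun q => ‖comb U Finset.univ ρ hρ (Pi.single k 1) q‖)
    have h4 := sq_one U ρ hρ hk
    have h5 : avR U (fun q => ‖comb U Finset.univ ρ hρ (Pi.single k 1) q‖ ^ 2) = 1 := by
      simp only [e2]
      exact h4
    rw [h5] at h3
    have h6 : 0 ≤ avR U (fun q => ‖comb U Finset.univ ρ hρ (Pi.single k 1) q‖) :=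
      avR_nonneg U fun q => norm_nonneg _
    nlinarith
  rw [e1] at h1
  have h3 := nrm_le U (τ k) (comb U Finset.univ ρ hρ (Pi.single k 1))
  rw [if_neg ht] at h3
  have hpi := Real.pi_gt_three
  have h4 : 2 / Real.pi < 1 := by
    rw [div_lt_one (by linarith)]
    linarith
  have h5 : (0 : ℝ) < 2 / Real.pi := by positivity
  have h6 : |((m k : ℤ) : ℝ)| < 2 := by
    calc |((m k : ℤ) : ℝ)| ≤ (2 : ℕ) * nrm U (τ k) (comb U Finset.univ ρ hρ (Pi.single k 1)) := h1
      _ ≤ (2 : ℕ) * (2 / Real.pi * 1) :=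
          mul_le_mul_of_nonneg_left (h3.trans (mul_le_mul_of_nonneg_left h2 h5.le)) (by positivity)
      _ < 2 := by
          push_cast
          linarith
  have h7 : |m k| < 2 := by exact_mod_cast h6
  omega

theorem sqrt_bound : 2 * (2 / Real.pi) * Real.sqrt 2 < 2 := by
  have hpi := Real.pi_gt_three
  have h1 : Real.sqrt 2 < 3 / 2 := by
    rw [Real.sqrt_lt' (by norm_num)]
    norm_num
  have h2 : 2 / Real.pi < 2 / 3 := by
    apply div_lt_div_of_pos_left <;> linarith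
  have h3 : 0 ≤ Real.sqrt 2 := Real.sqrt_nonneg _
  have h4 : 0 < 2 / Real.pi := by positivity
  nlinarith

include hα hreal hU hρ hB hB0 hL hm in
/-- two twists at the same height -/
theorem fin_same {k l : κ} (hkl : k ≠ l) (hk : (ρ k).IsIrreducible) (hl : (ρ l).IsIrreducible)
    (hne : IsEmpty ((ρ k).Equiv (ρ l))) (ht : τ k ≠ 0) (htt : τ k = τ l) : m k = 0 ∨ m l = 0 := by
  classical
  let _ : Fintype (GK F ⧸ U) := Fintype.ofFinite _
  by_contra hcon
  push Not at hcon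
  obtain ⟨h01, h02⟩ := hcon
  have hne' : IsEmpty ((ρ l).Equiv (ρ k)) := ⟨fun e => hne.false e.symm⟩
  have hk1 := fin_single w α hα hreal U hU ρ hρ τ B hB hB0 L hL m hm hk ht
  have hl1 := fin_single w α hα hreal U hU ρ hρ τ B hB hB0 L hL m hm hl (htt ▸ ht)
  have hk2 : ((m k : ℤ) : ℝ) ^ 2 = 1 := by
    have : |m k| = 1 := le_antisymm hk1 (Int.one_le_abs h01)
    have h3 : (m k) ^ 2 = 1 := by rw [← sq_abs, this]; norm_num
    exact_mod_cast h3
  have hl2 : ((m l : ℤ) : ℝ) ^ 2 = 1 := by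
    have : |m l| = 1 := le_antisymm hl1 (Int.one_le_abs h02)
    have h3 : (m l) ^ 2 = 1 := by rw [← sq_abs, this]; norm_num
    exact_mod_cast h3
  set c : κ → ℝ := fun i => if i = k then (m k : ℝ) else if i = l then (m l : ℝ) else 0 with hc
  have hck : c k = m k := by rw [hc]; simp
  have hcl : c l = m l := by
    rw [hc]
    simp only
    rw [if_neg (Ne.symm hkl)]
    simp
  have hc0 : ∀ i, i ∉ ({k, l} : Finset κ) → c i = 0 := by
    intro i hi
    rw [Finset.mem_insert, Finset.mem_singleton, not_or] at hi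
    rw [hc]
    simp only
    rw [if_neg hi.1, if_neg hi.2]
  have h1 := fin2 w α hα hreal U hU ρ hρ τ B hB hB0 L hL m hm (τ k) c (by
    intro i hi
    by_contra h
    apply hi
    apply hc0
    rw [Finset.mem_insert, Finset.mem_singleton, not_or]
    refine ⟨fun h' => h (by rw [h']), fun h' => h (by rw [h', htt])⟩)
  have e1 : ∑ i, c i * m i = 2 := by
    rw [← Finset.sum_subset (Finset.subset_univ ({k, l} : Finset κ)) fun i _ hi => by
      rw [hc0 i hi, zero_mul], Finset.sum_pair hkl, hck, hcl]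
    calc (m k : ℝ) * m k + m l * m l = (m k : ℝ) ^ 2 + (m l : ℝ) ^ 2 := by ring
      _ = 2 := by rw [hk2, hl2]; norm_num
  have e2 : ∀ q, comb U Finset.univ ρ hρ c q =
      (((m k : ℤ) : ℝ) : ℂ) * (chF U ρ hρ k).f q + (((m l : ℤ) : ℝ) : ℂ) * (chF U ρ hρ l).f q := by
    intro q
    unfold comb
    rw [← Finset.sum_subset (Finset.subset_univ ({k, l} : Finset κ)) fun i _ hi => by
      rw [hc0 i hi]; simp, Finset.sum_pair hkl, hck, hcl]
    rfl
  have h2 : avR U (fun q => ‖comb U Finset.univ ρ hρ c q‖) ≤ Real.sqrt 2 := by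
    have h3 := avR_sq_le U (fun q => ‖comb U Finset.univ ρ hρ c q‖)
    have h5 : avR U (fun q => ‖comb U Finset.univ ρ hρ c q‖ ^ 2) = 2 := by
      simp only [e2]
      rw [avR_pair U ρ hρ hk hl hne hne', hk2, hl2]
      norm_num
    rw [h5] at h3
    exact Real.le_sqrt_of_sq_le h3
  rw [e1] at h1
  have h3 := nrm_le U (τ k) (comb U Finset.univ ρ hρ c)
  rw [if_neg ht] at h3
  have h5 : (0 : ℝ) < 2 / Real.pi := by positivity
  have h6 : (2 : ℝ) ≤ 2 * (2 / Real.pi) * Real.sqrt 2 := by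
    calc (2 : ℝ) = |2| := by norm_num
      _ ≤ (2 : ℕ) * nrm U (τ k) (comb U Finset.univ ρ hρ c) := h1
      _ ≤ (2 : ℕ) * (2 / Real.pi * Real.sqrt 2) :=
          mul_le_mul_of_nonneg_left (h3.trans (mul_le_mul_of_nonneg_left h2 h5.le)) (by positivity)
      _ = _ := by push_cast; ring
  linarith [sqrt_bound]

include hα hreal hU hρ hB hB0 hL hm in
/-- two twists at different heights -/
theorem fin_diff {k l : κ} (hk : (ρ k).IsIrreducible) (hl : (ρ l).IsIrreducible)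
    (hsk : 0 < τ k) (hsl : 0 < τ l) (htt : τ k ≠ τ l) : m k = 0 ∨ m l = 0 := by
  classical
  let _ : Fintype (GK F ⧸ U) := Fintype.ofFinite _
  by_contra hcon
  push Not at hcon
  obtain ⟨h01, h02⟩ := hcon
  have hkl : k ≠ l := fun h => htt (by rw [h])
  have hk1 := fin_single w α hα hreal U hU ρ hρ τ B hB hB0 L hL m hm hk hsk.ne'
  have hl1 := fin_single w α hα hreal U hU ρ hρ τ B hB hB0 L hL m hm hl hsl.ne'
  have hk2 : ((m k : ℤ) : ℝ) ^ 2 = 1 := by
    have : |m k| = 1 := le_antisymm hk1 (Int.one_le_abs h01)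
    have h3 : (m k) ^ 2 = 1 := by rw [← sq_abs, this]; norm_num
    exact_mod_cast h3
  have hl2 : ((m l : ℤ) : ℝ) ^ 2 = 1 := by
    have : |m l| = 1 := le_antisymm hl1 (Int.one_le_abs h02)
    have h3 : (m l) ^ 2 = 1 := by rw [← sq_abs, this]; norm_num
    exact_mod_cast h3
  choose σ hσ using exists_isFrob (F := F)
  obtain ⟨a, ha, hmaj⟩ := strict hU σ hσ (chF U ρ hρ k) (chF U ρ hρ l) hsk hsl htt
    (sq_one U ρ hρ hk) (sq_one U ρ hρ hl) (mul_sq_pos U ρ hρ hk hl) hk2 hl2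
  have h1 : |∑ i ∈ ({k, l} : Finset κ), (m i : ℝ) * m i| ≤ (2 : ℕ) * a := by
    refine lim_le (x := xs w τ L) (fun i _ => hm i) (fun i => (m i : ℝ)) fun η hη => ?_
    refine core0 w α hα hreal U ({k, l} : Finset κ) ρ (fun i _ => hρ i) τ B (fun i _ => hB i)
      (fun i _ => hB0 i) L (fun i _ => hL i) σ hσ (fun i => (m i : ℝ)) (A := a) ?_ hη
    intro η' hη'
    refine (hmaj η' hη').mono fun ε h => ?_
    refine le_trans (le_of_eq ?_) h
    congr 2
    funext v
    rw [Finset.sum_pair hkl]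
    rfl
  rw [Finset.sum_pair hkl] at h1
  have h2 : (m k : ℝ) * m k + m l * m l = 2 := by
    calc (m k : ℝ) * m k + m l * m l = (m k : ℝ) ^ 2 + (m l : ℝ) ^ 2 := by ring
      _ = 2 := by rw [hk2, hl2]; norm_num
  rw [h2] at h1
  have h3 : |(2 : ℝ)| = 2 := by norm_num
  rw [h3] at h1
  push_cast at h1
  linarith

include hα hreal hU hρ hB hB0 hL hm in
/-- **At most one twist has a zero or a pole above the real point, and it is simple.** -/
theorem fin_one (K : Finset κ) (hirr : ∀ k ∈ K, (ρ k).IsIrreducible) (hpos : ∀ k ∈ K, 0 < τ k)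
    (hne : ∀ k ∈ K, ∀ l ∈ K, k ≠ l → τ k = τ l → IsEmpty ((ρ k).Equiv (ρ l))) :
    ∑ k ∈ K, |m k| ≤ 1 := by
  classical
  by_cases h : ∃ k ∈ K, m k ≠ 0
  · obtain ⟨k, hk, hmk⟩ := h
    rw [Finset.sum_eq_single_of_mem k hk fun l hl hlk => ?_]
    · exact fin_single w α hα hreal U hU ρ hρ τ B hB hB0 L hL m hm (hirr k hk) (hpos k hk).ne'
    · have h1 : m k = 0 ∨ m l = 0 := by
        by_cases htt : τ k = τ l
        · exact fin_same w α hα hreal U hU ρ hρ τ B hB hB0 L hL m hm (Ne.symm hlk) (hirr k hk)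
            (hirr l hl) (hne k hk l hl (Ne.symm hlk) htt) (hpos k hk).ne' htt
        · exact fin_diff w α hα hreal U hU ρ hρ τ B hB hB0 L hL m hm (hirr k hk)
            (hirr l hl) (hpos k hk) (hpos l hl) htt
      rcases h1 with h1 | h1
      · exact absurd h1 hmk
      · rw [h1, abs_zero]
  · push Not at h
    rw [Finset.sum_eq_zero fun k hk => by rw [h k hk, abs_zero]]
    norm_num

end

end Pool.Agent.W353.L1
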